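import Mathlib

open scoped ENNReal

namespace V11299.LI

/-- `F` is isomorphic to a complemented subspace of `E`. -/
def Compl (𝕜 F E : Type*) [NormedField 𝕜] [NormedAddCommGroup F] [NormedSpace 𝕜 F]
    [NormedAddCommGroup E] [NormedSpace 𝕜 E] : Prop :=
  ∃ (i : F →L[𝕜] E) (p : E →L[𝕜] F), ∀ x, p (i x) = x

theorem Compl.trans {𝕜 F E G : Type*} [NormedField 𝕜] [NormedAddCommGroup F] [NormedSpace 𝕜 F]
    [NormedAddCommGroup E] [NormedSpace 𝕜 E] [NormedAddCommGroup G] [NormedSpace 𝕜 G]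
    (h1 : Compl 𝕜 F E) (h2 : Compl 𝕜 E G) : Compl 𝕜 F G := by
  obtain ⟨i, p, hip⟩ := h1
  obtain ⟨j, q, hjq⟩ := h2
  exact ⟨j.comp i, p.comp q, fun x => by simp [hip, hjq]⟩

section inf
variable {𝕜 Y : Type*} [RCLike 𝕜] [NormedAddCommGroup Y] [NormedSpace 𝕜 Y]
variable {ι : Type*} {E : ι → Type*} [∀ i, NormedAddCommGroup (E i)] [∀ i, NormedSpace 𝕜 (E i)]

/-- A uniformly bounded family of linear maps gives an operator into the `ℓ∞`-sum. -/
noncomputable def infLift (T : ∀ i, Y →ₗ[𝕜] E i) (C : ℝ) (h : ∀ i y, ‖T i y‖ ≤ C * ‖y‖) :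
    Y →L[𝕜] lp E ∞ :=
  LinearMap.mkContinuous
    { toFun := fun y => ⟨fun i => T i y, memℓp_infty ⟨C * ‖y‖, by
        rintro _ ⟨i, rfl⟩; exact h i y⟩⟩
      map_add' := fun a b => by ext i; exact map_add (T i) a b
      map_smul' := fun c a => by ext i; exact map_smul (T i) c a }
    (max C 0) (fun y => by
      refine lp.norm_le_of_forall_le (by positivity) fun i => ?_
      refine (h i y).trans ?_
      gcongr
      exact le_max_left _ _)

@[simp] theorem infLift_apply (T : ∀ i, Y →ₗ[𝕜] E i) (C : ℝ) (h : ∀ i y, ‖T i y‖ ≤ C * ‖y‖)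
    (y : Y) (i : ι) : infLift T C h y i = T i y := rfl

/-- evaluation at a coordinate -/
noncomputable def ev (i : ι) : lp E ∞ →L[𝕜] E i :=
  LinearMap.mkContinuous
    { toFun := fun x => x i
      map_add' := fun a b => rfl
      map_smul' := fun c a => rfl } 1 (fun x => by
        rw [one_mul]; exact lp.norm_apply_le_norm (by simp) x i)

@[simp] theorem ev_apply (i : ι) (x : lp E ∞) : ev (𝕜 := 𝕜) i x = x i := rfl

end inf

section pel
variable {𝕜 F E : Type*} [RCLike 𝕜] [NormedAddCommGroup F] [NormedSpace 𝕜 F]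
    [NormedAddCommGroup E] [NormedSpace 𝕜 E]

/-- bounded sequences in `E` -/
abbrev Linf (E : Type*) [NormedAddCommGroup E] := lp (fun _ : ℕ => E) ∞

theorem norm_coord_le (x : Linf E) (n : ℕ) : ‖x n‖ ≤ ‖x‖ :=
  lp.norm_apply_le_norm (by simp) x n

/-- `ℓ∞(E) ≃ F × ℓ∞(E)` when `F` is complemented in `E`. -/
theorem shift_equiv (h : Compl 𝕜 F E) : Nonempty (Linf E ≃L[𝕜] F × Linf E) := by
  obtain ⟨i, p, hip⟩ := h
  let f : Linf E →L[𝕜] F × Linf E :=
    ((p.comp (ev (E := fun _ : ℕ => E) 0)).prod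
    (infLift (fun n =>
      ({ toFun := fun x : Linf E => i (p (x (n+1))) + (x n - i (p (x n)))
         map_add' := fun a b => by simp; abel
         map_smul' := fun c a => by simp [smul_sub] } : Linf E →ₗ[𝕜] E))
      (‖i‖ * ‖p‖ + 1 + ‖i‖ * ‖p‖) (fun n x => by
        have h1 : ∀ y : E, ‖i (p y)‖ ≤ ‖i‖ * ‖p‖ * ‖y‖ := fun y => by
          calc ‖i (p y)‖ ≤ ‖i‖ * ‖p y‖ := i.le_opNorm _
            _ ≤ ‖i‖ * (‖p‖ * ‖y‖) := by gcongr; exact p.le_opNorm _
            _ = _ := by ring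
        calc ‖i (p (x (n+1))) + (x n - i (p (x n)))‖
            ≤ ‖i (p (x (n+1)))‖ + (‖x n‖ + ‖i (p (x n))‖) :=
              (norm_add_le _ _).trans (by gcongr; exact norm_sub_le _ _)
          _ ≤ ‖i‖ * ‖p‖ * ‖x‖ + (‖x‖ + ‖i‖ * ‖p‖ * ‖x‖) := by
              gcongr
              · exact (h1 _).trans (by gcongr; exact norm_coord_le x _)
              · exact norm_coord_le x _
              · exact (h1 _).trans (by gcongr; exact norm_coord_le x _)
          _ = _ := by ring)))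
  let g : F × Linf E →L[𝕜] Linf E :=
    infLift (fun n => 
      match n with
      | 0 => ({ toFun := fun yz : F × Linf E => i yz.1 + (yz.2 0 - i (p (yz.2 0)))
                map_add' := fun a b => by simp; abel
                map_smul' := fun c a => by simp [smul_sub] } : F × Linf E →ₗ[𝕜] E)
      | (n+1) => ({ toFun := fun yz : F × Linf E => i (p (yz.2 n)) + (yz.2 (n+1) - i (p (yz.2 (n+1))))
                    map_add' := fun a b => by simp; abel
                    map_smul' := fun c a => by simp [smul_sub] } : F × Linf E →ₗ[𝕜] E))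
      (‖i‖ + ‖i‖ * ‖p‖ + 1 + ‖i‖ * ‖p‖) (fun n yz => by
        have h1 : ∀ y : E, ‖i (p y)‖ ≤ ‖i‖ * ‖p‖ * ‖y‖ := fun y => by
          calc ‖i (p y)‖ ≤ ‖i‖ * ‖p y‖ := i.le_opNorm _
            _ ≤ ‖i‖ * (‖p‖ * ‖y‖) := by gcongr; exact p.le_opNorm _
            _ = _ := by ring
        have h2 : ‖yz.2‖ ≤ ‖yz‖ := norm_snd_le yz
        have h3 : ‖yz.1‖ ≤ ‖yz‖ := norm_fst_le yz
        have h4 : ∀ n, ‖yz.2 n‖ ≤ ‖yz‖ := fun n => (norm_coord_le _ n).trans h2
        have h5 : 0 ≤ ‖i‖ * ‖yz‖ := by positivity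
        have h6 : 0 ≤ ‖i‖ * ‖p‖ * ‖yz‖ := by positivity
        match n with
        | 0 => 
          calc ‖i yz.1 + (yz.2 0 - i (p (yz.2 0)))‖ 
              ≤ ‖i yz.1‖ + (‖yz.2 0‖ + ‖i (p (yz.2 0))‖) :=
                (norm_add_le _ _).trans (by gcongr; exact norm_sub_le _ _)
            _ ≤ ‖i‖ * ‖yz‖ + (‖yz‖ + ‖i‖ * ‖p‖ * ‖yz‖) := by
                gcongr
                · exact (i.le_opNorm _).trans (by gcongr)
                · exact h4 0
                · exact (h1 _).trans (by gcongr; exact h4 0)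
            _ ≤ _ := by nlinarith
        | (n+1) =>
          calc ‖i (p (yz.2 n)) + (yz.2 (n+1) - i (p (yz.2 (n+1))))‖ 
              ≤ ‖i (p (yz.2 n))‖ + (‖yz.2 (n+1)‖ + ‖i (p (yz.2 (n+1)))‖) :=
                (norm_add_le _ _).trans (by gcongr; exact norm_sub_le _ _)
            _ ≤ ‖i‖ * ‖p‖ * ‖yz‖ + (‖yz‖ + ‖i‖ * ‖p‖ * ‖yz‖) := by
                gcongr
                · exact (h1 _).trans (by gcongr; exact h4 _)
                · exact h4 _
                · exact (h1 _).trans (by gcongr; exact h4 _)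
            _ ≤ _ := by nlinarith)
  refine ⟨ContinuousLinearEquiv.equivOfInverse f g ?_ ?_⟩
  · intro x
    ext n
    cases n with
    | zero =>
      change i (p (x 0)) + ((i (p (x 1)) + (x 0 - i (p (x 0)))) - i (p (i (p (x 1)) + (x 0 - i (p (x 0)))))) = x 0
      simp [hip]
    | succ n =>
      change i (p (i (p (x (n+1))) + (x n - i (p (x n))))) +
        ((i (p (x (n+1+1))) + (x (n+1) - i (p (x (n+1))))) -
          i (p (i (p (x (n+1+1))) + (x (n+1) - i (p (x (n+1))))))) = x (n+1)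
      simp [hip]
  · rintro ⟨y, z⟩
    refine Prod.ext ?_ ?_
    · change p (i y + (z 0 - i (p (z 0)))) = y
      simp [hip]
    · ext n
      cases n with
      | zero =>
        change i (p (i (p (z 0)) + (z 1 - i (p (z 1))))) +
          ((i y + (z 0 - i (p (z 0)))) - i (p (i y + (z 0 - i (p (z 0)))))) = z 0
        simp [hip]
      | succ n =>
        change i (p (i (p (z (n+1))) + (z (n+1+1) - i (p (z (n+1+1)))))) +
          ((i (p (z n)) + (z (n+1) - i (p (z (n+1))))) -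
            i (p (i (p (z n)) + (z (n+1) - i (p (z (n+1))))))) = z (n+1)
        simp [hip]

/-- Pelczynski's decomposition method. -/
theorem pelczynski (hE : Nonempty (E ≃L[𝕜] Linf E)) (h1 : Compl 𝕜 F E) (h2 : Compl 𝕜 E F) :
    Nonempty (E ≃L[𝕜] F) := by
  obtain ⟨e⟩ := hE
  obtain ⟨e1⟩ := shift_equiv h1
  obtain ⟨e2⟩ := shift_equiv (⟨ContinuousLinearMap.id 𝕜 E, ContinuousLinearMap.id 𝕜 E, by simp⟩ : Compl 𝕜 E E)
  -- E ≃ F × E
  let a1 : E ≃L[𝕜] F × E := (e.trans e1).trans ((ContinuousLinearEquiv.refl 𝕜 F).prodCongr e.symm)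
  let a2 : E ≃L[𝕜] E × E := (e.trans e2).trans ((ContinuousLinearEquiv.refl 𝕜 E).prodCongr e.symm)
  obtain ⟨i, p, hip⟩ := h2
  let a3 : F ≃L[𝕜] E × LinearMap.ker (p : F →ₗ[𝕜] E) := ContinuousLinearEquiv.equivOfRightInverse p i hip
  let a4 : F ≃L[𝕜] E × F :=
    (a3.trans (a2.prodCongr (ContinuousLinearEquiv.refl 𝕜 _))).trans
      ((ContinuousLinearEquiv.prodAssoc 𝕜 E E _).trans
        ((ContinuousLinearEquiv.refl 𝕜 E).prodCongr a3.symm))
  exact ⟨(a1.trans (ContinuousLinearEquiv.prodComm 𝕜 F E)).trans a4.symm⟩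

end pel

end V11299.LI
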