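import Mathlib
import Pool.Agent.V11299.LI.Pel

open scoped ENNReal Topology
open Filter

set_option linter.unusedSectionVars false

namespace V11299.LI

section swindle
variable (𝕜 X : Type*) [RCLike 𝕜] [NormedAddCommGroup X] [NormedSpace 𝕜 X]

theorem swindle : Nonempty (lp (fun _ : ℕ × ℕ => X) ∞ ≃L[𝕜] Linf (lp (fun _ : ℕ × ℕ => X) ∞)) := by
  obtain ⟨e⟩ : Nonempty (ℕ × (ℕ × ℕ) ≃ ℕ × ℕ) :=
    ⟨(Equiv.refl ℕ).prodCongr Nat.pairEquiv⟩
  have hb : ∀ (x : lp (fun _ : ℕ × ℕ => X) ∞) j, ‖x j‖ ≤ ‖x‖ := fun x j =>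
    lp.norm_apply_le_norm (by simp) x j
  let f : lp (fun _ : ℕ × ℕ => X) ∞ →L[𝕜] Linf (lp (fun _ : ℕ × ℕ => X) ∞) :=
    infLift (fun n => (infLift (fun j => (ev (𝕜 := 𝕜) (E := fun _ : ℕ × ℕ => X) (e (n, j))).toLinearMap) 1
      (fun j x => by rw [one_mul]; exact hb x _)).toLinearMap) 1 (fun n x => by
        rw [one_mul]
        exact lp.norm_le_of_forall_le (norm_nonneg _) fun j => hb x _)
  let g : Linf (lp (fun _ : ℕ × ℕ => X) ∞) →L[𝕜] lp (fun _ : ℕ × ℕ => X) ∞ :=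
    infLift (fun j => ((ev (𝕜 := 𝕜) (E := fun _ : ℕ × ℕ => X) (e.symm j).2).comp
      (ev (𝕜 := 𝕜) (E := fun _ : ℕ => lp (fun _ : ℕ × ℕ => X) ∞) (e.symm j).1)).toLinearMap) 1 (fun j y => by
        rw [one_mul]
        exact (hb _ _).trans (norm_coord_le y _))
  refine ⟨ContinuousLinearEquiv.equivOfInverse f g ?_ ?_⟩
  · intro x
    ext j
    change x (e ((e.symm j).1, (e.symm j).2)) = x j
    simp
  · intro y
    ext n j
    change y (e.symm (e (n, j))).1 (e.symm (e (n, j))).2 = y n j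
    simp

end swindle

section ulim
variable {𝕜 : Type*} [RCLike 𝕜]

/-- generalised limit of a bounded sequence -/
noncomputable def ulim (a : ℕ → 𝕜) : 𝕜 := limUnder (hyperfilter ℕ : Filter ℕ) a

theorem tendsto_ulim {a : ℕ → 𝕜} {C : ℝ} (h : ∀ n, ‖a n‖ ≤ C) :
    Tendsto a (hyperfilter ℕ : Filter ℕ) (𝓝 (ulim a)) := by
  apply tendsto_nhds_limUnder
  have hc : IsCompact (Metric.closedBall (0 : 𝕜) C) := isCompact_closedBall 0 C
  obtain ⟨x, -, hx⟩ := hc.ultrafilter_le_nhds ((hyperfilter ℕ).map a) (by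
    simp only [le_principal_iff]
    exact Filter.mem_map.2 (Filter.univ_mem' fun n => by simpa using h n))
  exact ⟨x, hx⟩

theorem ulim_eq {a : ℕ → 𝕜} {x : 𝕜} (h : Tendsto a (hyperfilter ℕ : Filter ℕ) (𝓝 x)) :
    ulim a = x := h.limUnder_eq

theorem ulim_eq_of_tendsto {a : ℕ → 𝕜} {x : 𝕜} (h : Tendsto a atTop (𝓝 x)) :
    ulim a = x := ulim_eq (h.mono_left Nat.hyperfilter_le_atTop)

theorem ulim_add {a b : ℕ → 𝕜} {C D : ℝ} (h : ∀ n, ‖a n‖ ≤ C) (h' : ∀ n, ‖b n‖ ≤ D) :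
    ulim (fun n => a n + b n) = ulim a + ulim b :=
  ulim_eq ((tendsto_ulim h).add (tendsto_ulim h'))

theorem ulim_smul {a : ℕ → 𝕜} {C : ℝ} (c : 𝕜) (h : ∀ n, ‖a n‖ ≤ C) :
    ulim (fun n => c * a n) = c * ulim a :=
  ulim_eq ((tendsto_ulim h).const_mul c)

end ulim

section fin
variable {𝕜 : Type*} [RCLike 𝕜] {p : ℝ≥0∞} [hp1 : Fact (1 ≤ p)]

theorem toReal_pos' (hp : p ≠ ∞) : 0 < p.toReal :=
  ENNReal.toReal_pos (by have := hp1.out; intro h; simp [h] at this) hp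

variable (𝕜 p) in
/-- scalar `ℓ^p` -/
noncomputable abbrev Xp := lp (fun _ : ℕ => 𝕜) p

variable (𝕜 p) in
/-- the `ℓ∞`-sum of the `ℓ_p^n` -/
noncomputable abbrev Bp := lp (fun n : ℕ => PiLp p (fun _ : Fin (n + 1) => 𝕜)) ∞

/-- coordinatewise limits of bounded sequences of `ℓ^p` -/
theorem exists_lim (hp : p ≠ ∞) (y : ℕ → Xp 𝕜 p) (C : ℝ) (hC : 0 ≤ C) (hy : ∀ n, ‖y n‖ ≤ C) :
    ∃ z : Xp 𝕜 p, (∀ j, z j = ulim (fun n => y n j)) ∧ ‖z‖ ≤ C := by
  have hp0 := toReal_pos' hp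
  have hb : ∀ n j, ‖y n j‖ ≤ C := fun n j =>
    (lp.norm_apply_le_norm (by have := hp1.out; intro h; simp [h] at this) (y n) j).trans (hy n)
  have key : ∀ s : Finset ℕ, ∑ j ∈ s, ‖ulim (fun n => y n j)‖ ^ p.toReal ≤ C ^ p.toReal := by
    intro s
    have h1 : Tendsto (fun n => ∑ j ∈ s, ‖y n j‖ ^ p.toReal) (hyperfilter ℕ : Filter ℕ)
        (𝓝 (∑ j ∈ s, ‖ulim (fun n => y n j)‖ ^ p.toReal)) := by
      refine tendsto_finsetSum s fun j _ => ?_
      exact ((tendsto_ulim (fun n => hb n j)).norm).rpow_const (Or.inr hp0.le)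
    refine le_of_tendsto h1 (Filter.Eventually.of_forall fun n => ?_)
    exact (lp.sum_rpow_le_norm_rpow hp0 (y n) s).trans
      (Real.rpow_le_rpow (norm_nonneg _) (hy n) hp0.le)
  refine ⟨⟨fun j => ulim (fun n => y n j), memℓp_gen' key⟩, fun j => rfl, ?_⟩
  exact lp.norm_le_of_forall_sum_le hp0 hC key

/-- extension by zero -/
noncomputable def extL (hp : p ≠ ∞) (N : ℕ) : PiLp p (fun _ : Fin N => 𝕜) →ₗ[𝕜] Xp 𝕜 p where
  toFun x := ⟨fun j => if h : j < N then x ⟨j, h⟩ else 0, by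
    apply memℓp_gen
    apply summable_of_ne_finset_zero (s := Finset.range N)
    intro j hj
    have : ¬ j < N := by simpa using hj
    simp [this, (toReal_pos' hp).ne']⟩
  map_add' a b := by
    ext j
    change (if h : j < N then (a + b) ⟨j, h⟩ else 0) = (if h : j < N then a ⟨j, h⟩ else 0) + (if h : j < N then b ⟨j, h⟩ else 0)
    split_ifs <;> simp
  map_smul' c a := by
    ext j
    change (if h : j < N then (c • a) ⟨j, h⟩ else 0) = c • (if h : j < N then a ⟨j, h⟩ else 0)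
    split_ifs <;> simp

theorem extL_apply (hp : p ≠ ∞) (N : ℕ) (x : PiLp p (fun _ : Fin N => 𝕜)) (j : ℕ) :
    (extL hp N x : Xp 𝕜 p) j = if h : j < N then x ⟨j, h⟩ else 0 := rfl

/-- restriction to the first coordinates -/
noncomputable def resL (N : ℕ) : Xp 𝕜 p →ₗ[𝕜] PiLp p (fun _ : Fin N => 𝕜) where
  toFun y := WithLp.toLp p (fun j : Fin N => y j)
  map_add' a b := by ext j; simp
  map_smul' c a := by ext j; simp

@[simp] theorem resL_apply (N : ℕ) (y : Xp 𝕜 p) (j : Fin N) : resL N y j = y j := rfl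

theorem norm_extL (hp : p ≠ ∞) (N : ℕ) (x : PiLp p (fun _ : Fin N => 𝕜)) :
    ‖extL hp N x‖ ≤ ‖x‖ := by
  have hp0 := toReal_pos' hp
  refine lp.norm_le_of_forall_sum_le hp0 (norm_nonneg _) fun s => ?_
  rw [PiLp.norm_eq_sum hp0, ← Real.rpow_mul (by positivity), one_div, inv_mul_cancel₀ hp0.ne', Real.rpow_one]
  calc ∑ j ∈ s, ‖extL hp N x j‖ ^ p.toReal
      ≤ ∑ j ∈ s ∪ Finset.range N, ‖extL hp N x j‖ ^ p.toReal :=
        Finset.sum_le_sum_of_subset_of_nonneg Finset.subset_union_left (fun _ _ _ => by positivity)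
    _ = ∑ j ∈ Finset.range N, ‖extL hp N x j‖ ^ p.toReal := by
        symm
        apply Finset.sum_subset Finset.subset_union_right
        intro j _ hj
        have : ¬ j < N := by simpa using hj
        rw [extL_apply]
        simp [this, hp0.ne']
    _ = ∑ j : Fin N, ‖extL hp N x j‖ ^ p.toReal := by
        rw [Finset.sum_range]
    _ = ∑ j : Fin N, ‖x j‖ ^ p.toReal := by
        refine Finset.sum_congr rfl fun j _ => ?_
        rw [extL_apply]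
        simp
    _ ≤ _ := le_refl _

theorem norm_resL (hp : p ≠ ∞) (N : ℕ) (y : Xp 𝕜 p) : ‖resL N y‖ ≤ ‖y‖ := by
  have hp0 := toReal_pos' hp
  rw [PiLp.norm_eq_sum hp0]
  have h1 : ∑ j : Fin N, ‖resL N y j‖ ^ p.toReal ≤ ‖y‖ ^ p.toReal := by
    simp only [resL_apply]
    rw [← Finset.sum_range (fun j => ‖y j‖ ^ p.toReal)]
    exact lp.sum_rpow_le_norm_rpow hp0 y _
  calc (∑ j : Fin N, ‖resL N y j‖ ^ p.toReal) ^ (1 / p.toReal) ≤ (‖y‖ ^ p.toReal) ^ (1 / p.toReal) := by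
        gcongr
    _ = ‖y‖ := by
        rw [← Real.rpow_mul (norm_nonneg _), mul_one_div_cancel hp0.ne', Real.rpow_one]

variable (𝕜 p) in
/-- the hub space -/
noncomputable abbrev Hub := lp (fun _ : ℕ × ℕ => Xp 𝕜 p) ∞

theorem norm_hub_le (g : Hub 𝕜 p) (j : ℕ × ℕ) : ‖g j‖ ≤ ‖g‖ := lp.norm_apply_le_norm (by simp) g j

theorem norm_Bp_le (g : Bp 𝕜 p) (j : ℕ) : ‖g j‖ ≤ ‖g‖ := lp.norm_apply_le_norm (by simp) g j

theorem compl_B_hub (hp : p ≠ ∞) : Compl 𝕜 (Bp 𝕜 p) (Hub 𝕜 p) := by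
  refine ⟨infLift (fun j => (extL hp (j.1 + 1)).comp (ev (𝕜 := 𝕜) (E := fun n : ℕ => PiLp p (fun _ : Fin (n + 1) => 𝕜)) j.1).toLinearMap) 1 (fun j x => ?_),
    infLift (fun n => (resL (n + 1)).comp (ev (𝕜 := 𝕜) (E := fun _ : ℕ × ℕ => Xp 𝕜 p) (n, 0)).toLinearMap) 1 (fun n x => ?_), ?_⟩
  · rw [one_mul]
    exact (norm_extL hp _ _).trans (norm_Bp_le x _)
  · rw [one_mul]
    exact (norm_resL hp _ _).trans (norm_hub_le x _)
  · intro x
    ext n j
    change (extL hp (n + 1) (x n) : Xp 𝕜 p) j = x n j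
    rw [extL_apply, dif_pos j.2]

theorem compl_hub_B (hp : p ≠ ∞) : Compl 𝕜 (Hub 𝕜 p) (Bp 𝕜 p) := by
  classical
  -- coordinatewise limits
  have hex : ∀ (a : ℕ × ℕ) (y : Bp 𝕜 p), ∃ z : Xp 𝕜 p,
      (∀ j, z j = ulim (fun n => (extL hp (Nat.pair (Nat.pair a.1 a.2) n + 1)
        (y (Nat.pair (Nat.pair a.1 a.2) n)) : Xp 𝕜 p) j)) ∧ ‖z‖ ≤ ‖y‖ := fun a y =>
    exists_lim hp _ _ (norm_nonneg _) fun n => (norm_extL hp _ _).trans (norm_Bp_le y _)
  choose L hL hLn using hex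
  have hbd : ∀ (a : ℕ × ℕ) (y : Bp 𝕜 p) (j n : ℕ), ‖(extL hp (Nat.pair (Nat.pair a.1 a.2) n + 1)
        (y (Nat.pair (Nat.pair a.1 a.2) n)) : Xp 𝕜 p) j‖ ≤ ‖y‖ := fun a y j n =>
    (lp.norm_apply_le_norm (by have := hp1.out; intro h; simp [h] at this) _ j).trans
      ((norm_extL hp _ _).trans (norm_Bp_le y _))
  let T : ∀ a : ℕ × ℕ, Bp 𝕜 p →ₗ[𝕜] Xp 𝕜 p := fun a =>
    { toFun := L a
      map_add' := fun y y' => by
        ext j
        rw [lp.coeFn_add, Pi.add_apply, hL, hL, hL, ← ulim_add (hbd a y j) (hbd a y' j)]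
        congr 1
        ext n
        simp
      map_smul' := fun c y => by
        ext j
        rw [RingHom.id_apply, lp.coeFn_smul, Pi.smul_apply, hL, hL, smul_eq_mul, ← ulim_smul c (hbd a y j)]
        congr 1
        ext n
        simp }
  refine ⟨infLift (fun M => (resL (M + 1)).comp (ev (𝕜 := 𝕜) (E := fun _ : ℕ × ℕ => Xp 𝕜 p)
      (Nat.unpair (Nat.unpair M).1)).toLinearMap) 1 (fun M x => ?_),
    infLift T 1 (fun a y => ?_), ?_⟩
  · rw [one_mul]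
    exact (norm_resL hp _ _).trans (norm_hub_le x _)
  · rw [one_mul]
    exact hLn a y
  · intro g
    ext a j
    change L a _ j = g a j
    rw [hL]
    apply ulim_eq_of_tendsto
    refine tendsto_const_nhds.congr' ?_
    filter_upwards [eventually_ge_atTop j] with n hn
    rw [extL_apply]
    have h1 : j < Nat.pair (Nat.pair a.1 a.2) n + 1 := by
      have := Nat.right_le_pair (Nat.pair a.1 a.2) n
      omega
    rw [dif_pos h1]
    change g a j = g (Nat.unpair (Nat.unpair (Nat.pair (Nat.pair a.1 a.2) n)).1) j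
    simp

/-- `ℓ∞`-sum of `ℓ_p^n` is isomorphic to the hub. -/
theorem hub_B (hp : p ≠ ∞) : Nonempty (Hub 𝕜 p ≃L[𝕜] Bp 𝕜 p) :=
  pelczynski (swindle 𝕜 (Xp 𝕜 p)) (compl_B_hub hp) (compl_hub_B hp)

end fin

end V11299.LI
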