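import Mathlib
import Pool.Agent.V11299.LI.Hub

open scoped ENNReal Topology
open Filter MeasureTheory

set_option linter.unusedSectionVars false
set_option linter.unusedVariables false

namespace V11299.LI

section cell
variable {Ω : Type*} [MeasurableSpace Ω] {μ : Measure Ω} [IsFiniteMeasure μ] {π : Ω → ℕ}
variable {𝕜 : Type*} [RCLike 𝕜] {p : ℝ≥0∞} [hp1 : Fact (1 ≤ p)]

/-- mass of a cell -/
noncomputable def ms (μ : Measure Ω) (π : Ω → ℕ) (k : ℕ) : ℝ := μ.real (π ⁻¹' {k})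

theorem ms_nonneg (k : ℕ) : 0 ≤ ms μ π k := measureReal_nonneg

/-- weights -/
noncomputable def wt (μ : Measure Ω) (π : Ω → ℕ) (p : ℝ≥0∞) (k : ℕ) : ℝ :=
  (ms μ π k) ^ (-(1 / p.toReal))

/-- dual weights -/
noncomputable def wt' (μ : Measure Ω) (π : Ω → ℕ) (p : ℝ≥0∞) (k : ℕ) : ℝ :=
  (ms μ π k) ^ (1 / p.toReal - 1)

theorem wt_nonneg (k : ℕ) : 0 ≤ wt μ π p k := Real.rpow_nonneg (ms_nonneg k) _
theorem wt'_nonneg (k : ℕ) : 0 ≤ wt' μ π p k := Real.rpow_nonneg (ms_nonneg k) _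

theorem one_le_toReal (hp : p ≠ ∞) : 1 ≤ p.toReal := by
  have := ENNReal.toReal_mono hp hp1.out
  simpa using this

theorem wt_pow_mul (hp : p ≠ ∞) (k : ℕ) : (wt μ π p k) ^ p.toReal * ms μ π k ≤ 1 := by
  have hP := toReal_pos' hp
  rcases (ms_nonneg (μ := μ) (π := π) k).eq_or_lt with h | h
  · rw [← h]; simp
  · rw [wt, ← Real.rpow_mul h.le]
    have : -(1 / p.toReal) * p.toReal = -1 := by field_simp
    rw [this, Real.rpow_neg_one, inv_mul_cancel₀ h.ne']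

theorem wt_mul_wt' (hp : p ≠ ∞) {k : ℕ} (h : 0 < ms μ π k) :
    wt μ π p k * wt' μ π p k = (ms μ π k)⁻¹ := by
  rw [wt, wt', ← Real.rpow_add h]
  have : -(1 / p.toReal) + (1 / p.toReal - 1) = -1 := by ring
  rw [this, Real.rpow_neg_one]

theorem wt'_mul (hp : p ≠ ∞) (k : ℕ) : wt' μ π p k * (ms μ π k) ^ (1 - 1 / p.toReal) ≤ 1 := by
  rcases (ms_nonneg (μ := μ) (π := π) k).eq_or_lt with h | h
  · rw [wt', ← h]
    rcases eq_or_ne (1 / p.toReal - 1) 0 with h0 | h0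
    · have h1 : 1 - 1 / p.toReal = 0 := by linarith
      rw [h0, h1]; simp
    · rw [Real.zero_rpow h0]; simp
  · rw [wt', ← Real.rpow_add h]
    have : 1 / p.toReal - 1 + (1 - 1 / p.toReal) = 0 := by ring
    rw [this, Real.rpow_zero]

omit [IsFiniteMeasure μ] in
theorem lintegral_cell (hπ : Measurable π) (F : ℕ → ℝ≥0∞) :
    ∫⁻ t, F (π t) ∂μ = ∑' k, F k * μ (π ⁻¹' {k}) := by
  rw [← lintegral_map (measurable_of_countable F) hπ, lintegral_countable']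
  refine tsum_congr fun k => ?_
  rw [Measure.map_apply hπ (measurableSet_singleton k)]

theorem enorm_rpow_eq {x : 𝕜} {r : ℝ} (hr : 0 ≤ r) : ‖x‖ₑ ^ r = ENNReal.ofReal (‖x‖ ^ r) := by
  rw [← ofReal_norm, ENNReal.ofReal_rpow_of_nonneg (norm_nonneg _) hr]

theorem eLpNorm_U (hπ : Measurable π) (hp : p ≠ ∞) (x : Xp 𝕜 p) :
    eLpNorm (fun t => (wt μ π p (π t) : 𝕜) * x (π t)) p μ ≤ ENNReal.ofReal ‖x‖ := by
  have hP := toReal_pos' hp
  have hp0 : p ≠ 0 := by have := hp1.out; intro h; simp [h] at this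
  rw [eLpNorm_eq_lintegral_rpow_enorm_toReal hp0 hp]
  have h1 : ∫⁻ t, ‖(wt μ π p (π t) : 𝕜) * x (π t)‖ₑ ^ p.toReal ∂μ ≤ ENNReal.ofReal (‖x‖ ^ p.toReal) := by
    rw [lintegral_cell hπ (fun k => ‖(wt μ π p k : 𝕜) * x k‖ₑ ^ p.toReal), lp.norm_rpow_eq_tsum hP,
      ENNReal.ofReal_tsum_of_nonneg (fun k => by positivity) ((lp.memℓp x).summable hP)]
    refine ENNReal.tsum_le_tsum fun k => ?_
    have h2 : μ (π ⁻¹' {k}) = ENNReal.ofReal (ms μ π k) := by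
      rw [ms, ofReal_measureReal]
    rw [h2, enorm_rpow_eq hP.le, ← ENNReal.ofReal_mul (by positivity)]
    apply ENNReal.ofReal_le_ofReal
    rw [norm_mul, Real.mul_rpow (norm_nonneg _) (norm_nonneg _)]
    have h3 : ‖(wt μ π p k : 𝕜)‖ = wt μ π p k := by
      rw [RCLike.norm_ofReal, abs_of_nonneg (wt_nonneg k)]
    rw [h3]
    calc (wt μ π p k) ^ p.toReal * ‖x k‖ ^ p.toReal * ms μ π k
        = ((wt μ π p k) ^ p.toReal * ms μ π k) * ‖x k‖ ^ p.toReal := by ring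
      _ ≤ 1 * ‖x k‖ ^ p.toReal := by
          gcongr
          exact wt_pow_mul hp k
      _ = _ := one_mul _
  calc (∫⁻ t, ‖(wt μ π p (π t) : 𝕜) * x (π t)‖ₑ ^ p.toReal ∂μ) ^ (1 / p.toReal)
      ≤ (ENNReal.ofReal (‖x‖ ^ p.toReal)) ^ (1 / p.toReal) := by gcongr
    _ = ENNReal.ofReal ‖x‖ := by
      rw [← ENNReal.ofReal_rpow_of_nonneg (norm_nonneg _) hP.le, ← ENNReal.rpow_mul,
        mul_one_div_cancel hP.ne', ENNReal.rpow_one]

theorem memLp_U (hπ : Measurable π) (hp : p ≠ ∞) (x : Xp 𝕜 p) :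
    MemLp (fun t => (wt μ π p (π t) : 𝕜) * x (π t)) p μ :=
  ⟨((StronglyMeasurable.of_discrete (f := fun k : ℕ => (wt μ π p k : 𝕜) * x k)).comp_measurable hπ).aestronglyMeasurable,
    (eLpNorm_U hπ hp x).trans_lt ENNReal.ofReal_lt_top⟩

/-- the embedding `ℓ^p → L^p` attached to the cells of `π` -/
noncomputable def U (μ : Measure Ω) [IsFiniteMeasure μ] (hπ : Measurable π) (hp : p ≠ ∞) :
    Xp 𝕜 p →L[𝕜] Lp 𝕜 p μ :=
  LinearMap.mkContinuous
    { toFun := fun x => (memLp_U hπ hp x).toLp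
      map_add' := fun x y => by
        rw [← MemLp.toLp_add]
        congr 1
        ext t
        simp [mul_add]
      map_smul' := fun c x => by
        rw [RingHom.id_apply, ← MemLp.toLp_const_smul]
        congr 1
        ext t
        simp
        ring } 1 (fun x => by
      rw [one_mul]
      change ‖(memLp_U hπ hp x).toLp‖ ≤ _
      rw [Lp.norm_toLp]
      exact ENNReal.toReal_le_of_le_ofReal (norm_nonneg _) (eLpNorm_U hπ hp x))

theorem coeFn_U (hπ : Measurable π) (hp : p ≠ ∞) (x : Xp 𝕜 p) :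
    (U μ hπ hp x : Ω → 𝕜) =ᵐ[μ] fun t => (wt μ π p (π t) : 𝕜) * x (π t) :=
  (memLp_U hπ hp x).coeFn_toLp

theorem norm_U (hπ : Measurable π) (hp : p ≠ ∞) (x : Xp 𝕜 p) : ‖U μ hπ hp x‖ ≤ ‖x‖ := by
  change ‖(memLp_U hπ hp x).toLp‖ ≤ _
  rw [Lp.norm_toLp]
  exact ENNReal.toReal_le_of_le_ofReal (norm_nonneg _) (eLpNorm_U hπ hp x)

theorem T_term (hπ : Measurable π) (hp : p ≠ ∞) (h : Lp 𝕜 p μ) (k : ℕ) :
    ENNReal.ofReal (‖(wt' μ π p k : 𝕜) * ∫ t in π ⁻¹' {k}, h t ∂μ‖ ^ p.toReal) ≤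
      ∫⁻ t in π ⁻¹' {k}, ‖h t‖ₑ ^ p.toReal ∂μ := by
  have hP := toReal_pos' hp
  have hP1 := one_le_toReal hp
  have hp0 : p ≠ 0 := by have := hp1.out; intro h; simp [h] at this
  have hm : AEStronglyMeasurable h (μ.restrict (π ⁻¹' {k})) := (Lp.aestronglyMeasurable h).restrict
  have h1 : ‖(wt' μ π p k : 𝕜) * ∫ t in π ⁻¹' {k}, h t ∂μ‖ₑ ≤ eLpNorm h p (μ.restrict (π ⁻¹' {k})) := by
    rw [enorm_mul]
    have h2 : ‖(wt' μ π p k : 𝕜)‖ₑ = ENNReal.ofReal (wt' μ π p k) := by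
      rw [← ofReal_norm, RCLike.norm_ofReal, abs_of_nonneg (wt'_nonneg k)]
    have h3 : ‖∫ t in π ⁻¹' {k}, h t ∂μ‖ₑ ≤
        eLpNorm h p (μ.restrict (π ⁻¹' {k})) * (ENNReal.ofReal (ms μ π k)) ^ (1 - 1 / p.toReal) := by
      refine (enorm_integral_le_lintegral_enorm _).trans ?_
      have h4 := eLpNorm_le_eLpNorm_mul_rpow_measure_univ (μ := μ.restrict (π ⁻¹' {k})) hp1.out hm
      rw [eLpNorm_one_eq_lintegral_enorm] at h4
      simpa [ms, ofReal_measureReal] using h4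
    rw [h2]
    calc ENNReal.ofReal (wt' μ π p k) * ‖∫ t in π ⁻¹' {k}, h t ∂μ‖ₑ
        ≤ ENNReal.ofReal (wt' μ π p k) * (eLpNorm h p (μ.restrict (π ⁻¹' {k})) *
          (ENNReal.ofReal (ms μ π k)) ^ (1 - 1 / p.toReal)) := by gcongr
      _ = (ENNReal.ofReal (wt' μ π p k) * (ENNReal.ofReal (ms μ π k)) ^ (1 - 1 / p.toReal)) *
          eLpNorm h p (μ.restrict (π ⁻¹' {k})) := by ring
      _ ≤ 1 * eLpNorm h p (μ.restrict (π ⁻¹' {k})) := by
          gcongr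
          have h5 : 0 ≤ 1 - 1 / p.toReal := by
            have : 1 / p.toReal ≤ 1 := by
              rw [div_le_one hP]; exact hP1
            linarith
          rw [ENNReal.ofReal_rpow_of_nonneg (ms_nonneg k) h5, ← ENNReal.ofReal_mul (wt'_nonneg k)]
          rw [ENNReal.ofReal_le_one]
          exact wt'_mul hp k
      _ = _ := one_mul _
  rw [← enorm_rpow_eq hP.le]
  calc _ ≤ (eLpNorm h p (μ.restrict (π ⁻¹' {k}))) ^ p.toReal := by gcongr
    _ = _ := by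
      rw [eLpNorm_eq_lintegral_rpow_enorm_toReal hp0 hp, ← ENNReal.rpow_mul, one_div_mul_cancel hP.ne',
        ENNReal.rpow_one]

omit [IsFiniteMeasure μ] in
theorem tsum_cell_le (hπ : Measurable π) (F : Ω → ℝ≥0∞) (s : Finset ℕ) :
    ∑ k ∈ s, ∫⁻ t in π ⁻¹' {k}, F t ∂μ ≤ ∫⁻ t, F t ∂μ := by
  rw [← lintegral_biUnion_finset]
  · exact setLIntegral_le_lintegral _ _
  · intro a _ b _ hab
    exact Disjoint.preimage _ (by simpa using hab)
  · intro k _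
    exact hπ (measurableSet_singleton k)

theorem T_sum (hπ : Measurable π) (hp : p ≠ ∞) (h : Lp 𝕜 p μ) (s : Finset ℕ) :
    ∑ k ∈ s, ‖(wt' μ π p k : 𝕜) * ∫ t in π ⁻¹' {k}, h t ∂μ‖ ^ p.toReal ≤ ‖h‖ ^ p.toReal := by
  have hP := toReal_pos' hp
  have hp0 : p ≠ 0 := by have := hp1.out; intro h; simp [h] at this
  rw [← ENNReal.ofReal_le_ofReal_iff (by positivity), ENNReal.ofReal_sum_of_nonneg (fun k _ => by positivity)]
  calc ∑ k ∈ s, ENNReal.ofReal (‖(wt' μ π p k : 𝕜) * ∫ t in π ⁻¹' {k}, h t ∂μ‖ ^ p.toReal)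
      ≤ ∑ k ∈ s, ∫⁻ t in π ⁻¹' {k}, ‖h t‖ₑ ^ p.toReal ∂μ := Finset.sum_le_sum fun k _ => T_term hπ hp h k
    _ ≤ ∫⁻ t, ‖h t‖ₑ ^ p.toReal ∂μ := tsum_cell_le hπ _ s
    _ = (eLpNorm h p μ) ^ p.toReal := by
      rw [eLpNorm_eq_lintegral_rpow_enorm_toReal hp0 hp, ← ENNReal.rpow_mul, one_div_mul_cancel hP.ne',
        ENNReal.rpow_one]
    _ = ENNReal.ofReal (‖h‖ ^ p.toReal) := by
      rw [← ENNReal.ofReal_rpow_of_nonneg (norm_nonneg _) hP.le, Lp.norm_def,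
        ENNReal.ofReal_toReal (Lp.eLpNorm_ne_top h)]

theorem integrable_Lp (h : Lp 𝕜 p μ) : Integrable h μ :=
  (Lp.memLp h).integrable hp1.out

/-- the averaging operator `L^p → ℓ^p` attached to the cells of `π` -/
noncomputable def T (μ : Measure Ω) [IsFiniteMeasure μ] (hπ : Measurable π) (hp : p ≠ ∞) :
    Lp 𝕜 p μ →L[𝕜] Xp 𝕜 p :=
  LinearMap.mkContinuous
    { toFun := fun h => ⟨fun k => (wt' μ π p k : 𝕜) * ∫ t in π ⁻¹' {k}, h t ∂μ,
        memℓp_gen' (T_sum hπ hp h)⟩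
      map_add' := fun x y => by
        ext k
        change (wt' μ π p k : 𝕜) * ∫ t in π ⁻¹' {k}, (x + y : Lp 𝕜 p μ) t ∂μ =
          (wt' μ π p k : 𝕜) * (∫ t in π ⁻¹' {k}, x t ∂μ) + (wt' μ π p k : 𝕜) * ∫ t in π ⁻¹' {k}, y t ∂μ
        rw [← mul_add, ← integral_add (integrable_Lp x).integrableOn (integrable_Lp y).integrableOn]
        congr 1
        exact integral_congr_ae (ae_restrict_of_ae (Lp.coeFn_add x y))
      map_smul' := fun c x => by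
        ext k
        change (wt' μ π p k : 𝕜) * ∫ t in π ⁻¹' {k}, (c • x : Lp 𝕜 p μ) t ∂μ =
          c • ((wt' μ π p k : 𝕜) * (∫ t in π ⁻¹' {k}, x t ∂μ))
        have h1 : ∫ t in π ⁻¹' {k}, (c • x : Lp 𝕜 p μ) t ∂μ = c * ∫ t in π ⁻¹' {k}, x t ∂μ := by
          rw [← integral_const_mul]
          exact integral_congr_ae (ae_restrict_of_ae (Lp.coeFn_smul c x))
        rw [h1, smul_eq_mul]
        ring } 1 (fun h => by
      rw [one_mul]
      exact lp.norm_le_of_forall_sum_le (toReal_pos' hp) (norm_nonneg _) (T_sum hπ hp h))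

theorem T_apply (hπ : Measurable π) (hp : p ≠ ∞) (h : Lp 𝕜 p μ) (k : ℕ) :
    T μ hπ hp h k = (wt' μ π p k : 𝕜) * ∫ t in π ⁻¹' {k}, h t ∂μ := rfl

theorem norm_T (hπ : Measurable π) (hp : p ≠ ∞) (h : Lp 𝕜 p μ) : ‖T μ hπ hp h‖ ≤ ‖h‖ :=
  lp.norm_le_of_forall_sum_le (toReal_pos' hp) (norm_nonneg _) (T_sum hπ hp h)

theorem ae_ms_pos (hπ : Measurable π) : ∀ᵐ t ∂μ, 0 < ms μ π (π t) := by
  have h : ∀ k, ∀ᵐ t ∂μ, π t = k → 0 < ms μ π k := by
    intro k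
    rcases (ms_nonneg (μ := μ) (π := π) k).eq_or_lt with h | h
    · have : μ (π ⁻¹' {k}) = 0 := by
        have := h.symm
        rwa [ms, measureReal_eq_zero_iff] at this
      filter_upwards [measure_eq_zero_iff_ae_notMem.1 this] with t ht h2
      exact absurd h2 ht
    · exact Filter.Eventually.of_forall fun _ _ => h
  filter_upwards [ae_all_iff.2 h] with t ht using ht _ rfl

theorem coeFn_UT (hπ : Measurable π) (hp : p ≠ ∞) (h : Lp 𝕜 p μ) :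
    (U μ hπ hp (T μ hπ hp h) : Ω → 𝕜) =ᵐ[μ]
      fun t => ((ms μ π (π t))⁻¹ : ℝ) * ∫ t in π ⁻¹' {π t}, h t ∂μ := by
  filter_upwards [coeFn_U hπ hp (T μ hπ hp h), ae_ms_pos hπ] with t ht h0
  rw [ht, T_apply, ← mul_assoc, ← RCLike.ofReal_mul, wt_mul_wt' hp h0]

theorem T_U (hπ : Measurable π) (hp : p ≠ ∞) (h0 : ∀ k, 0 < ms μ π k) (x : Xp 𝕜 p) :
    T μ hπ hp (U μ hπ hp x) = x := by
  ext k
  rw [T_apply]
  have h1 : ∫ t in π ⁻¹' {k}, (U μ hπ hp x : Ω → 𝕜) t ∂μ = ∫ t in π ⁻¹' {k}, (wt μ π p k : 𝕜) * x k ∂μ := by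
    refine setIntegral_congr_ae (hπ (measurableSet_singleton k)) ?_
    filter_upwards [coeFn_U hπ hp x] with t ht hk
    rw [ht, show π t = k from hk]
  have h2 : ∫ t in π ⁻¹' {k}, (U μ hπ hp x : Ω → 𝕜) t ∂μ = (ms μ π k : 𝕜) * ((wt μ π p k : 𝕜) * x k) := by
    rw [h1, setIntegral_const, RCLike.real_smul_eq_coe_mul]
    rfl
  rw [h2]
  have := wt_mul_wt' (μ := μ) (π := π) hp (h0 k)
  calc (wt' μ π p k : 𝕜) * ((ms μ π k : 𝕜) * ((wt μ π p k : 𝕜) * x k))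
      = ((wt μ π p k * wt' μ π p k * ms μ π k : ℝ) : 𝕜) * x k := by push_cast; ring
    _ = x k := by rw [this, inv_mul_cancel₀ (h0 k).ne']; simp

/-- integrals over unions of cells do not change under averaging -/
theorem setIntegral_UT (hπ : Measurable π) (hp : p ≠ ∞) (h : Lp 𝕜 p μ) (S : Set ℕ) :
    ∫ t in π ⁻¹' S, (U μ hπ hp (T μ hπ hp h) : Ω → 𝕜) t ∂μ = ∫ t in π ⁻¹' S, h t ∂μ := by
  have hS : π ⁻¹' S = ⋃ k : S, π ⁻¹' {(k : ℕ)} := by
    ext t; simp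
  have hd : Pairwise (Function.onFun Disjoint fun k : S => π ⁻¹' {(k : ℕ)}) := by
    intro a b hab
    exact Disjoint.preimage _ (by simpa [Subtype.ext_iff] using hab)
  rw [hS, integral_iUnion (fun k => hπ (measurableSet_singleton _)) hd (integrable_Lp _).integrableOn,
    integral_iUnion (fun k => hπ (measurableSet_singleton _)) hd (integrable_Lp _).integrableOn]
  refine tsum_congr fun k => ?_
  have h1 : ∫ t in π ⁻¹' {(k : ℕ)}, (U μ hπ hp (T μ hπ hp h) : Ω → 𝕜) t ∂μ =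
      ∫ t in π ⁻¹' {(k : ℕ)}, (((ms μ π k)⁻¹ : ℝ) : 𝕜) * ∫ t in π ⁻¹' {(k : ℕ)}, h t ∂μ ∂μ := by
    refine setIntegral_congr_ae (hπ (measurableSet_singleton _)) ?_
    filter_upwards [coeFn_UT hπ hp h] with t ht hk
    rw [ht, show π t = k from hk]
  rw [h1, setIntegral_const, ← ms, RCLike.real_smul_eq_coe_mul, ← mul_assoc, ← RCLike.ofReal_mul]
  rcases (ms_nonneg (μ := μ) (π := π) k).eq_or_lt with h2 | h2
  · have h3 : μ (π ⁻¹' {(k : ℕ)}) = 0 := by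
      have := h2.symm
      rwa [ms, measureReal_eq_zero_iff] at this
    rw [Measure.restrict_eq_zero.2 h3]
    simp
  · rw [mul_inv_cancel₀ h2.ne']; simp

end cell

end V11299.LI
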