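import Mathlib
import Pool.Agent.V11299.LI.Cell

open scoped ENNReal Topology
open Filter MeasureTheory

set_option linter.unusedSectionVars false
set_option linter.unusedVariables false

namespace V11299.LI

/-- Lebesgue measure on `[0,1]` -/
noncomputable abbrev mu : Measure ℝ := volume.restrict (Set.Icc (0:ℝ) 1)

instance : IsProbabilityMeasure mu := ⟨by simp [mu]⟩

/-- index of the dyadic cell of level `m` -/
noncomputable def dy (m : ℕ) (t : ℝ) : ℕ := ⌊(2:ℝ) ^ m * t⌋₊

theorem measurable_dy (m : ℕ) : Measurable (dy m) :=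
  Nat.measurable_floor.comp (measurable_const.mul measurable_id)

theorem cell_inter {m k : ℕ} (hk : k < 2 ^ m) :
    dy m ⁻¹' {k} ∩ Set.Icc (0:ℝ) 1 = Set.Ico ((k:ℝ) / 2 ^ m) ((k + 1) / 2 ^ m) := by
  have h2 : (0:ℝ) < 2 ^ m := by positivity
  have hk' : (k:ℝ) + 1 ≤ 2 ^ m := by exact_mod_cast hk
  ext t
  simp only [Set.mem_inter_iff, Set.mem_preimage, Set.mem_singleton_iff, Set.mem_Icc, Set.mem_Ico, dy]
  constructor
  · rintro ⟨h, h0, h1⟩
    rw [Nat.floor_eq_iff (by positivity)] at h
    constructor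
    · rw [div_le_iff₀ h2]; linarith [h.1]
    · rw [lt_div_iff₀ h2]; linarith [h.2]
  · rintro ⟨h, h'⟩
    have h0 : 0 ≤ t := le_trans (by positivity) h
    rw [div_le_iff₀ h2] at h
    rw [lt_div_iff₀ h2] at h'
    refine ⟨?_, h0, ?_⟩
    · rw [Nat.floor_eq_iff (by positivity)]
      exact ⟨by linarith, by linarith⟩
    · by_contra hc
      push Not at hc
      nlinarith

theorem restrict_cell {m k : ℕ} (hk : k < 2 ^ m) :
    mu.restrict (dy m ⁻¹' {k}) = volume.restrict (Set.Ico ((k:ℝ) / 2 ^ m) ((k + 1) / 2 ^ m)) := by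
  rw [mu, Measure.restrict_restrict (measurable_dy m (measurableSet_singleton k)), cell_inter hk]

theorem ms_dy {m k : ℕ} (hk : k < 2 ^ m) : ms mu (dy m) k = ((2:ℝ) ^ m)⁻¹ := by
  rw [ms, measureReal_def, ← Measure.restrict_apply_univ, restrict_cell hk]
  simp only [Measure.restrict_apply, MeasurableSet.univ, Set.univ_inter, Real.volume_Ico]
  rw [ENNReal.toReal_ofReal]
  · have : (2:ℝ) ^ m ≠ 0 := by positivity
    field_simp
    ring
  · have : (0:ℝ) < 2 ^ m := by positivity
    rw [← sub_div]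
    apply div_nonneg _ this.le; linarith

theorem ae_Ico : ∀ᵐ t ∂mu, t ∈ Set.Ico (0:ℝ) 1 := by
  have h : mu = volume.restrict (Set.Ico (0:ℝ) 1) := (restrict_Ico_eq_restrict_Icc).symm
  rw [h]
  exact ae_restrict_mem measurableSet_Ico

theorem dy_lt {m : ℕ} {t : ℝ} (ht : t ∈ Set.Ico (0:ℝ) 1) : dy m t < 2 ^ m := by
  rw [dy, Nat.floor_lt (by have := ht.1; positivity)]
  have h2 : (0:ℝ) < 2 ^ m := by positivity
  push_cast
  nlinarith [ht.2]

theorem ms_dy_eq_zero {m k : ℕ} (hk : 2 ^ m ≤ k) : ms mu (dy m) k = 0 := by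
  rw [ms, measureReal_eq_zero_iff]
  rw [measure_eq_zero_iff_ae_notMem]
  filter_upwards [ae_Ico] with t ht h
  have := dy_lt (m := m) ht
  rw [show dy m t = k from h] at this
  omega

theorem integral_dy {E : Type*} [NormedAddCommGroup E] [NormedSpace ℝ E] [CompleteSpace E]
    (m : ℕ) (F : ℕ → E) :
    ∫ t, F (dy m t) ∂mu = ∑ k ∈ Finset.range (2 ^ m), ((2:ℝ) ^ m)⁻¹ • F k := by
  have hae : (⋃ k ∈ Finset.range (2 ^ m), dy m ⁻¹' {k} : Set ℝ) =ᵐ[mu] (Set.univ : Set ℝ) := by
    rw [eventuallyEq_univ]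
    filter_upwards [ae_Ico] with t ht
    simp only [Finset.mem_range, Set.mem_iUnion, Set.mem_preimage, Set.mem_singleton_iff,
      exists_prop, exists_eq_right']
    exact dy_lt ht
  have h1 : ∀ k, Set.EqOn (fun t => F (dy m t)) (fun _ => F k) (dy m ⁻¹' {k}) := by
    intro k t ht
    simp only
    rw [show dy m t = k from ht]
  rw [← setIntegral_univ, ← setIntegral_congr_set hae,
    integral_biUnion_finset]
  · refine Finset.sum_congr rfl fun k hk => ?_
    rw [setIntegral_congr_fun (measurable_dy m (measurableSet_singleton k)) (h1 k), setIntegral_const,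
      ← ms, ms_dy (Finset.mem_range.1 hk)]
  · intro k _
    exact measurable_dy m (measurableSet_singleton k)
  · intro a _ b _ hab
    exact Disjoint.preimage _ (by simpa using hab)
  · intro k _
    refine (integrableOn_congr_fun (h1 k) (measurable_dy m (measurableSet_singleton k))).2 ?_
    exact integrableOn_const (measure_ne_top mu _)

theorem dy_div {m n : ℕ} (h : m ≤ n) (t : ℝ) : dy m t = dy n t / 2 ^ (n - m) := by
  rw [dy, dy, ← Nat.cast_two (R := ℕ), ← Nat.floor_div_natCast]
  congr 1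
  push_cast
  rw [← Nat.sub_add_cancel h]
  simp only [Nat.add_sub_cancel]
  rw [pow_add]
  field_simp

/-- dyadic filtration -/
noncomputable def dyF : Filtration ℕ (borel ℝ) where
  seq m := MeasurableSpace.comap (dy m) ⊤
  mono' := by
    intro m n h
    rintro s ⟨T, -, rfl⟩
    refine ⟨(fun j => j / 2 ^ (n - m)) ⁻¹' T, trivial, ?_⟩
    ext t
    simp [dy_div h]
  le' := fun m => by
    rw [← BorelSpace.measurable_eq (α := ℝ)]
    exact (measurable_dy m).comap_le

theorem sum_pair {M : Type*} [AddCommMonoid M] (F : ℕ → M) (N : ℕ) :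
    ∑ j ∈ Finset.range (2 * N), F j = ∑ k ∈ Finset.range N, (F (2 * k) + F (2 * k + 1)) := by
  induction N with
  | zero => simp
  | succ n ih =>
    rw [Finset.sum_range_succ, ← ih, show 2 * (n + 1) = 2 * n + 1 + 1 by ring, Finset.sum_range_succ,
      Finset.sum_range_succ, add_assoc]

theorem dyadic_conv_real (a : ℕ → ℕ → ℝ) (hc : ∀ m k, a m k = (a (m + 1) (2 * k) + a (m + 1) (2 * k + 1)) / 2)
    (R : ℝ) (hR : ∀ m, ∑ k ∈ Finset.range (2 ^ m), ((2:ℝ) ^ m)⁻¹ * |a m k| ≤ R) :
    ∀ᵐ t ∂mu, ∃ l, Tendsto (fun m => a m (dy m t)) atTop (𝓝 l) := by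
  have hmeas : ∀ m (F : ℕ → ℝ), AEStronglyMeasurable (fun t => F (dy m t)) mu := fun m F =>
    ((StronglyMeasurable.of_discrete (f := F)).comp_measurable (measurable_dy m)).aestronglyMeasurable
  have hint : ∀ m (F : ℕ → ℝ), Integrable (fun t => F (dy m t)) mu := by
    intro m F
    refine ⟨hmeas m F, ?_⟩
    refine HasFiniteIntegral.of_bounded (C := ∑ k ∈ Finset.range (2 ^ m), |F k|) ?_
    filter_upwards [ae_Ico] with t ht
    exact Finset.single_le_sum (f := fun k => |F k|) (fun _ _ => abs_nonneg _)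
      (Finset.mem_range.2 (dy_lt ht))
  have hm : Martingale (fun m t => a m (dy m t)) dyF mu := by
    refine martingale_of_setIntegral_eq_succ ?_ (fun m => hint m (a m)) ?_
    · intro m
      have : Measurable[MeasurableSpace.comap (dy m) ⊤] (fun t => a m (dy m t)) :=
        (measurable_from_top (f := a m)).comp (comap_measurable (dy m))
      exact this.stronglyMeasurable
    · intro m s hs
      obtain ⟨S, -, rfl⟩ := hs
      have hms : MeasurableSet (dy m ⁻¹' S) := measurable_dy m (MeasurableSet.of_discrete)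
      rw [← integral_indicator hms, ← integral_indicator hms]
      classical
      let F1 : ℕ → ℝ := fun j => if j / 2 ∈ S then a m (j / 2) else 0
      let F2 : ℕ → ℝ := fun j => if j / 2 ∈ S then a (m + 1) j else 0
      have e1 : (fun t => (dy m ⁻¹' S).indicator (fun t => a m (dy m t)) t) =
          fun t => F1 (dy (m + 1) t) := by
        funext t
        have := dy_div (Nat.le_succ m) t
        simp only [Nat.succ_eq_add_one, Nat.add_sub_cancel_left, pow_one] at this
        simp only [Set.indicator, Set.mem_preimage, this, F1, F2]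
      have e2 : (fun t => (dy m ⁻¹' S).indicator (fun t => a (m + 1) (dy (m + 1) t)) t) =
          fun t => F2 (dy (m + 1) t) := by
        funext t
        have := dy_div (Nat.le_succ m) t
        simp only [Nat.succ_eq_add_one, Nat.add_sub_cancel_left, pow_one] at this
        simp only [Set.indicator, Set.mem_preimage, this, F1, F2]
      rw [e1, e2, integral_dy (m + 1) F1, integral_dy (m + 1) F2, show 2 ^ (m + 1) = 2 * 2 ^ m by ring,
        sum_pair, sum_pair]
      refine Finset.sum_congr rfl fun k _ => ?_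
      have h1 : (2 * k) / 2 = k := by omega
      have h2 : (2 * k + 1) / 2 = k := by omega
      simp only [h1, h2, F1, F2]
      split_ifs
      · simp only [smul_eq_mul]
        rw [hc m k]; ring
      · simp
  have hb : ∀ m, eLpNorm (fun t => a m (dy m t)) 1 mu ≤ (Real.toNNReal R : ℝ≥0∞) := by
    intro m
    rw [eLpNorm_one_eq_lintegral_enorm, ← ofReal_integral_norm_eq_lintegral_enorm (hint m (a m))]
    change _ ≤ ENNReal.ofReal R
    apply ENNReal.ofReal_le_ofReal
    have := integral_dy m (fun k => |a m k|)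
    simp only [Real.norm_eq_abs]
    rw [this]
    simpa using hR m
  filter_upwards [hm.submartingale.ae_tendsto_limitProcess hb] with t ht using ⟨_, ht⟩

theorem dyadic_conv {𝕜 : Type*} [RCLike 𝕜] (a : ℕ → ℕ → 𝕜)
    (hc : ∀ m k, a m k = (a (m + 1) (2 * k) + a (m + 1) (2 * k + 1)) / 2)
    (R : ℝ) (hR : ∀ m, ∑ k ∈ Finset.range (2 ^ m), ((2:ℝ) ^ m)⁻¹ * ‖a m k‖ ≤ R) :
    ∀ᵐ t ∂mu, ∃ l, Tendsto (fun m => a m (dy m t)) atTop (𝓝 l) := by
  have h1 := dyadic_conv_real (fun m k => RCLike.re (a m k)) (fun m k => by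
    rw [hc m k]
    have : ((a (m + 1) (2 * k) + a (m + 1) (2 * k + 1)) / 2 : 𝕜) =
      (((1 / 2 : ℝ)) : 𝕜) * (a (m + 1) (2 * k) + a (m + 1) (2 * k + 1)) := by push_cast; ring
    rw [this, RCLike.re_ofReal_mul, map_add]; ring) R (fun m => by
      refine le_trans (Finset.sum_le_sum fun k _ => ?_) (hR m)
      gcongr
      exact RCLike.abs_re_le_norm _)
  have h2 := dyadic_conv_real (fun m k => RCLike.im (a m k)) (fun m k => by
    rw [hc m k]
    have : ((a (m + 1) (2 * k) + a (m + 1) (2 * k + 1)) / 2 : 𝕜) =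
      (((1 / 2 : ℝ)) : 𝕜) * (a (m + 1) (2 * k) + a (m + 1) (2 * k + 1)) := by push_cast; ring
    rw [this, RCLike.im_ofReal_mul, map_add]; ring) R (fun m => by
      refine le_trans (Finset.sum_le_sum fun k _ => ?_) (hR m)
      gcongr
      exact RCLike.abs_im_le_norm _)
  filter_upwards [h1, h2] with t ⟨x, hx⟩ ⟨y, hy⟩
  refine ⟨(x : 𝕜) + (y : 𝕜) * RCLike.I, ?_⟩
  have h3 := ((RCLike.continuous_ofReal (K := 𝕜)).tendsto x).comp hx
  have h4 := (((RCLike.continuous_ofReal (K := 𝕜)).tendsto y).comp hy).mul_const (RCLike.I : 𝕜)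
  refine (h3.add h4).congr fun m => ?_
  simp [RCLike.re_add_im]

/-- dyadic Lebesgue differentiation -/
theorem dyadic_leb {E : Type*} [NormedAddCommGroup E] [NormedSpace ℝ E] [CompleteSpace E]
    {h : ℝ → E} (hh : Integrable h mu) :
    ∀ᵐ t ∂mu, Tendsto (fun m => (ms mu (dy m) (dy m t))⁻¹ • ∫ x in dy m ⁻¹' {dy m t}, h x ∂mu)
      atTop (𝓝 (h t)) := by
  have h1 : LocallyIntegrable ((Set.Icc (0:ℝ) 1).indicator h) volume :=
    ((integrable_indicator_iff measurableSet_Icc).2 hh).locallyIntegrable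
  have h2 := IsUnifLocDoublingMeasure.ae_tendsto_average (μ := (volume : Measure ℝ)) h1 1
  filter_upwards [ae_restrict_of_ae h2, ae_Ico] with t ht ht'
  have h3 := ht (l := atTop) (fun m : ℕ => ((dy m t : ℝ) + 1 / 2) / 2 ^ m) (fun m : ℕ => 1 / 2 * ((1:ℝ) / 2) ^ m)
    (by
      rw [tendsto_nhdsWithin_iff]
      refine ⟨?_, Eventually.of_forall fun m => by simp⟩
      have := (tendsto_pow_atTop_nhds_zero_of_lt_one (r := (1:ℝ)/2) (by norm_num) (by norm_num)).const_mul (1/2)
      simpa using this)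
    (Eventually.of_forall fun m => by
      have h2 : (0:ℝ) < 2 ^ m := by positivity
      have h5 : (dy m t : ℝ) ≤ 2 ^ m * t := Nat.floor_le (by have := ht'.1; positivity)
      have h6 : 2 ^ m * t < (dy m t : ℝ) + 1 := Nat.lt_floor_add_one _
      rw [one_mul, Metric.mem_closedBall, Real.dist_eq, abs_le]
      have h7 : t - ((dy m t : ℝ) + 1 / 2) / 2 ^ m = (2 ^ m * t - ((dy m t : ℝ) + 1 / 2)) / 2 ^ m := by
        field_simp
      have h8 : (1:ℝ) / 2 * (1 / 2) ^ m = (1 / 2) / 2 ^ m := by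
        rw [div_pow, one_pow]; ring
      rw [h8, h7]
      constructor
      · rw [← neg_div]
        gcongr
        linarith
      · gcongr
        linarith)
  have h4 : (Set.Icc (0:ℝ) 1).indicator h t = h t :=
    Set.indicator_of_mem (Set.Ico_subset_Icc_self ht') _
  rw [h4] at h3
  refine h3.congr fun m => ?_
  have hk := dy_lt (m := m) ht'
  have h2 : (0:ℝ) < 2 ^ m := by positivity
  have hball : Metric.closedBall (((dy m t : ℝ) + 1 / 2) / 2 ^ m) (1 / 2 * ((1:ℝ) / 2) ^ m) =
      Set.Icc ((dy m t : ℝ) / 2 ^ m) (((dy m t : ℝ) + 1) / 2 ^ m) := by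
    rw [Real.closedBall_eq_Icc]
    have h8 : (1:ℝ) / 2 * (1 / 2) ^ m = (1 / 2) / 2 ^ m := by
      rw [div_pow, one_pow]; ring
    rw [h8]
    congr 1
    · rw [← sub_div]; congr 1; ring
    · rw [← add_div]; congr 1; ring
  have hsub : Set.Ico ((dy m t : ℝ) / 2 ^ m) (((dy m t : ℝ) + 1) / 2 ^ m) ⊆ Set.Icc (0:ℝ) 1 := by
    rw [← cell_inter hk]; exact Set.inter_subset_right
  rw [hball, setAverage_eq, integral_Icc_eq_integral_Ico,
    setIntegral_congr_fun measurableSet_Ico (fun x hx => Set.indicator_of_mem (hsub hx) h)]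
  rw [ms_dy hk, restrict_cell hk]
  congr 2
  rw [measureReal_def, Real.volume_Icc, ENNReal.toReal_ofReal]
  · field_simp; ring
  · rw [← sub_div]
    apply div_nonneg _ h2.le; linarith

end V11299.LI
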