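import Mathlib
import Pool.Agent.V11299.LI.Dyadic

open scoped ENNReal Topology
open Filter MeasureTheory

set_option linter.unusedSectionVars false
set_option linter.unusedVariables false

namespace V11299.LI

theorem measurable_of_dist {α X : Type*} [MeasurableSpace α] [MetricSpace X]
    [SecondCountableTopology X] [MeasurableSpace X] [BorelSpace X] {F : α → X}
    (h : ∀ x, Measurable (fun a => dist (F a) x)) : Measurable F := by
  obtain ⟨D, hD, hdense⟩ := TopologicalSpace.exists_countable_dense X
  apply measurable_of_isOpen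
  intro O hO
  have key : F ⁻¹' O = ⋃ x ∈ D, ⋃ (q : ℚ), ⋃ (_ : Metric.ball x (q : ℝ) ⊆ O), {a | dist (F a) x < q} := by
    ext a
    simp only [Set.mem_preimage, Set.mem_iUnion, Set.mem_ofPred_eq, exists_prop]
    constructor
    · intro ha
      obtain ⟨ε, hε, hb⟩ := Metric.isOpen_iff.1 hO _ ha
      obtain ⟨x, hx, hxd⟩ := hdense.exists_dist_lt (F a) (half_pos hε)
      obtain ⟨q, hq1, hq2⟩ := exists_rat_btwn hxd
      refine ⟨x, hx, q, fun z hz => hb ?_, hq1⟩
      rw [Metric.mem_ball] at hz ⊢
      calc dist z (F a) ≤ dist z x + dist x (F a) := dist_triangle _ _ _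
        _ < ε / 2 + ε / 2 := by
          rw [dist_comm x]
          linarith
        _ = ε := by ring
    · rintro ⟨x, -, q, hq, ha⟩
      exact hq ha
  rw [key]
  refine MeasurableSet.biUnion hD fun x _ => MeasurableSet.iUnion fun q => MeasurableSet.iUnion fun _ => ?_
  exact measurableSet_lt (h x) measurable_const

section
variable {𝕜 : Type*} [RCLike 𝕜] {p : ℝ≥0∞} [hp1 : Fact (1 ≤ p)]

theorem measurable_eLpNorm_section (hp : p ≠ ∞) {G : ℝ × ℝ → 𝕜} (hG : Measurable G) :
    Measurable fun s => eLpNorm (fun t => G (s, t)) p mu := by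
  have hp0 : p ≠ 0 := by have := hp1.out; intro h; simp [h] at this
  have : (fun s => eLpNorm (fun t => G (s, t)) p mu) =
      fun s => (∫⁻ t, ‖G (s, t)‖ₑ ^ p.toReal ∂mu) ^ (1 / p.toReal) := by
    funext s
    rw [eLpNorm_eq_lintegral_rpow_enorm_toReal hp0 hp]
  rw [this]
  exact (Measurable.lintegral_prod_right' (hG.enorm.pow_const _)).pow_const _

theorem exists_curry (hp : p ≠ ∞) {H : ℝ × ℝ → 𝕜} (hH : StronglyMeasurable H) :
    ∃ F : ℝ → Lp 𝕜 p mu, StronglyMeasurable F ∧
      ∀ s, MemLp (fun t => H (s, t)) p mu → (F s : ℝ → 𝕜) =ᵐ[mu] fun t => H (s, t) := by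
  classical
  have hm := hH.measurable
  have hsec : ∀ s, StronglyMeasurable (fun t => H (s, t)) := fun s =>
    hH.comp_measurable measurable_prodMk_left
  let S : Set ℝ := {s | eLpNorm (fun t => H (s, t)) p mu < ∞}
  have hS : MeasurableSet S := measurableSet_lt (measurable_eLpNorm_section hp hm) measurable_const
  have hSm : ∀ s, s ∈ S ↔ MemLp (fun t => H (s, t)) p mu := fun s =>
    ⟨fun h => ⟨(hsec s).aestronglyMeasurable, h⟩, fun h => h.2⟩
  let F : ℝ → Lp 𝕜 p mu := fun s => if h : MemLp (fun t => H (s, t)) p mu then h.toLp else 0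
  letI : MeasurableSpace (Lp 𝕜 p mu) := borel _
  haveI : BorelSpace (Lp 𝕜 p mu) := ⟨rfl⟩
  have : Fact (p ≠ ∞) := ⟨hp⟩
  refine ⟨F, ?_, ?_⟩
  · refine Measurable.stronglyMeasurable (measurable_of_dist fun x => ?_)
    have e : (fun s => dist (F s) x) = S.piecewise
        (fun s => (eLpNorm (fun t => (H (s, t) - x t)) p mu).toReal) (fun _ => dist 0 x) := by
      funext s
      by_cases hs : s ∈ S
      · rw [Set.piecewise_eq_of_mem _ _ _ hs]
        have hs' := (hSm s).1 hs
        simp only [F, dif_pos hs']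
        rw [dist_eq_norm, Lp.norm_def]
        congr 1
        apply eLpNorm_congr_ae
        filter_upwards [Lp.coeFn_sub hs'.toLp x, hs'.coeFn_toLp] with t h1 h2
        rw [h1, Pi.sub_apply, h2]
      · rw [Set.piecewise_eq_of_notMem _ _ _ hs]
        have hs' : ¬ MemLp (fun t => H (s, t)) p mu := fun h => hs ((hSm s).2 h)
        simp only [F, dif_neg hs']
    rw [e]
    refine Measurable.piecewise hS ?_ measurable_const
    have hx : Measurable (x : ℝ → 𝕜) := (Lp.stronglyMeasurable x).measurable
    exact (measurable_eLpNorm_section hp (G := fun z => H z - x z.2) (hm.sub (hx.comp measurable_snd))).ennreal_toReal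
  · intro s hs
    simp only [F, dif_pos hs]
    exact hs.coeFn_toLp

end

end V11299.LI
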