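import Mathlib
import Pool.Agent.V11299.LI.Curry

open scoped ENNReal Topology
open Filter MeasureTheory

set_option linter.unusedSectionVars false
set_option linter.unusedVariables false

namespace V11299.LI

section lam
variable {𝕜 : Type*} [RCLike 𝕜] {p : ℝ≥0∞} [hp1 : Fact (1 ≤ p)]

variable (𝕜) in
/-- average over a dyadic cell -/
noncomputable def av (hp : p ≠ ∞) (m k : ℕ) : Lp 𝕜 p mu →L[𝕜] 𝕜 :=
  LinearMap.mkContinuous
    { toFun := fun h => (wt mu (dy m) p k : 𝕜) * T mu (measurable_dy m) hp h k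
      map_add' := fun x y => by
        rw [map_add, lp.coeFn_add, Pi.add_apply, mul_add]
      map_smul' := fun c x => by
        rw [map_smul, lp.coeFn_smul, Pi.smul_apply, RingHom.id_apply, smul_eq_mul, smul_eq_mul]
        ring } (wt mu (dy m) p k) (fun h => by
      change ‖(wt mu (dy m) p k : 𝕜) * T mu (measurable_dy m) hp h k‖ ≤ _
      rw [norm_mul, RCLike.norm_ofReal, abs_of_nonneg (wt_nonneg k)]
      refine mul_le_mul_of_nonneg_left ?_ (wt_nonneg k)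
      exact (lp.norm_apply_le_norm (by have := hp1.out; intro h; simp [h] at this) _ k).trans
        (norm_T _ hp h))

theorem av_eq (hp : p ≠ ∞) (m k : ℕ) (h : Lp 𝕜 p mu) :
    av 𝕜 hp m k h = (wt mu (dy m) p k : 𝕜) * T mu (measurable_dy m) hp h k := rfl

theorem av_apply (hp : p ≠ ∞) (m k : ℕ) (h : Lp 𝕜 p mu) :
    av 𝕜 hp m k h = (((ms mu (dy m) k)⁻¹ : ℝ) : 𝕜) * ∫ t in dy m ⁻¹' {k}, h t ∂mu := by
  rw [av_eq, T_apply]
  rcases (ms_nonneg (μ := mu) (π := dy m) k).eq_or_lt with h2 | h2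
  · have h3 : mu (dy m ⁻¹' {(k : ℕ)}) = 0 := by
      have := h2.symm
      rwa [ms, measureReal_eq_zero_iff] at this
    rw [Measure.restrict_eq_zero.2 h3]
    simp
  · rw [← mul_assoc, ← RCLike.ofReal_mul, wt_mul_wt' hp h2]

theorem norm_av (hp : p ≠ ∞) (m k : ℕ) (h : Lp 𝕜 p mu) : ‖av 𝕜 hp m k h‖ ≤ wt mu (dy m) p k * ‖h‖ := by
  rw [av_eq, norm_mul, RCLike.norm_ofReal, abs_of_nonneg (wt_nonneg k)]
  refine mul_le_mul_of_nonneg_left ?_ (wt_nonneg k)
  exact (lp.norm_apply_le_norm (by have := hp1.out; intro h; simp [h] at this) _ k).trans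
        (norm_T _ hp h)

theorem cell_split (m k : ℕ) : dy m ⁻¹' {k} = dy (m + 1) ⁻¹' {2 * k} ∪ dy (m + 1) ⁻¹' {2 * k + 1} := by
  ext t
  have := dy_div (Nat.le_succ m) t
  simp only [Nat.succ_eq_add_one, Nat.add_sub_cancel_left, pow_one] at this
  simp only [Set.mem_preimage, Set.mem_singleton_iff, Set.mem_union, this]
  omega

theorem av_split (hp : p ≠ ∞) (m k : ℕ) (h : Lp 𝕜 p mu) :
    av 𝕜 hp m k h = (av 𝕜 hp (m + 1) (2 * k) h + av 𝕜 hp (m + 1) (2 * k + 1) h) / 2 := by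
  simp only [av_apply]
  rcases lt_or_ge k (2 ^ m) with hk | hk
  · rw [ms_dy hk, ms_dy (show 2 * k < 2 ^ (m + 1) by rw [pow_succ]; omega),
      ms_dy (show 2 * k + 1 < 2 ^ (m + 1) by rw [pow_succ]; omega), cell_split m k,
      setIntegral_union _ (measurable_dy _ (measurableSet_singleton _)) (integrable_Lp _).integrableOn
        (integrable_Lp _).integrableOn]
    · push_cast
      simp only [inv_inv]
      ring
    · exact Disjoint.preimage _ (by simp)
  · rw [ms_dy_eq_zero hk, ms_dy_eq_zero (show 2 ^ (m + 1) ≤ 2 * k by rw [pow_succ]; omega),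
      ms_dy_eq_zero (show 2 ^ (m + 1) ≤ 2 * k + 1 by rw [pow_succ]; omega)]
    simp

/-- the step functions built from an element of the hub -/
noncomputable def fs (hp : p ≠ ∞) (g : Hub 𝕜 p) (n : ℕ) (s : ℝ) : Lp 𝕜 p mu :=
  U mu (measurable_dy n) hp (g (n, dy n s))

theorem norm_fs (hp : p ≠ ∞) (g : Hub 𝕜 p) (n : ℕ) (s : ℝ) : ‖fs hp g n s‖ ≤ ‖g‖ :=
  (norm_U _ hp _).trans (norm_hub_le g _)

theorem sm_fs (hp : p ≠ ∞) (g : Hub 𝕜 p) (n : ℕ) : StronglyMeasurable (fs hp g n) :=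
  (StronglyMeasurable.of_discrete (f := fun k : ℕ => U mu (measurable_dy n) hp (g (n, k)))).comp_measurable
    (measurable_dy n)

theorem int_fs (hp : p ≠ ∞) (g : Hub 𝕜 p) (n : ℕ) : Integrable (fs hp g n) mu :=
  ⟨(sm_fs hp g n).aestronglyMeasurable,
    HasFiniteIntegral.of_bounded (C := ‖g‖) (Eventually.of_forall fun s => norm_fs hp g n s)⟩

theorem int_av (hp : p ≠ ∞) (g : Hub 𝕜 p) (m k n : ℕ) :
    Integrable (fun x => av 𝕜 hp m k (fs hp g n x)) mu := by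
  have h := int_fs hp g n
  exact ContinuousLinearMap.integrable_comp (av 𝕜 hp m k) h

/-- distribution functions -/
noncomputable def Phi (hp : p ≠ ∞) (g : Hub 𝕜 p) (m k : ℕ) (s : ℝ) : 𝕜 :=
  ulim (fun n => ∫ x in Set.Iic s, av 𝕜 hp m k (fs hp g n x) ∂mu)

theorem bd_int (hp : p ≠ ∞) (g : Hub 𝕜 p) (m k : ℕ) (s : ℝ) (n : ℕ) :
    ‖∫ x in Set.Iic s, av 𝕜 hp m k (fs hp g n x) ∂mu‖ ≤ wt mu (dy m) p k * ‖g‖ := by
  refine (norm_setIntegral_le_of_norm_le_const (C := wt mu (dy m) p k * ‖g‖) (measure_lt_top _ _) fun x _ => ?_).trans ?_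
  · exact (norm_av hp m k _).trans (mul_le_mul_of_nonneg_left (norm_fs hp g n x) (wt_nonneg k))
  · have h1 : mu.real (Set.Iic s) ≤ 1 := measureReal_le_one
    have h2 : 0 ≤ wt mu (dy m) p k * ‖g‖ := mul_nonneg (wt_nonneg k) (norm_nonneg _)
    nlinarith

theorem Phi_add (hp : p ≠ ∞) (g g' : Hub 𝕜 p) (m k : ℕ) (s : ℝ) :
    Phi hp (g + g') m k s = Phi hp g m k s + Phi hp g' m k s := by
  rw [Phi, Phi, Phi, ← ulim_add (bd_int hp g m k s) (bd_int hp g' m k s)]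
  congr 1
  funext n
  rw [← integral_add (int_av hp g m k n).integrableOn (int_av hp g' m k n).integrableOn]
  congr 1
  funext x
  rw [← map_add]
  congr 1
  simp only [fs, lp.coeFn_add, Pi.add_apply, map_add]

theorem Phi_smul (hp : p ≠ ∞) (c : 𝕜) (g : Hub 𝕜 p) (m k : ℕ) (s : ℝ) :
    Phi hp (c • g) m k s = c * Phi hp g m k s := by
  rw [Phi, Phi, ← ulim_smul c (bd_int hp g m k s)]
  congr 1
  funext n
  rw [← integral_const_mul]
  congr 1
  funext x
  rw [← smul_eq_mul, ← map_smul]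
  congr 1
  simp only [fs, lp.coeFn_smul, Pi.smul_apply, map_smul]

theorem Phi_split (hp : p ≠ ∞) (g : Hub 𝕜 p) (m k : ℕ) (s : ℝ) :
    Phi hp g m k s = (1 / 2) * (Phi hp g (m + 1) (2 * k) s + Phi hp g (m + 1) (2 * k + 1) s) := by
  rw [Phi, Phi, Phi, ← ulim_add (bd_int hp g _ _ s) (bd_int hp g _ _ s),
    ← ulim_smul (1 / 2) (C := wt mu (dy (m+1)) p (2 * k) * ‖g‖ + wt mu (dy (m+1)) p (2 * k + 1) * ‖g‖)
      (fun n => (norm_add_le _ _).trans (add_le_add (bd_int hp g _ _ s n) (bd_int hp g _ _ s n)))]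
  congr 1
  funext n
  rw [← integral_add (int_av hp g (m + 1) (2 * k) n).integrableOn
    (int_av hp g (m + 1) (2 * k + 1) n).integrableOn, ← integral_const_mul]
  congr 1
  funext x
  rw [av_split hp m k]
  ring

/-- increments of `Phi` -/
theorem Phi_incr (hp : p ≠ ∞) (g : Hub 𝕜 p) (m : ℕ) {s s' : ℝ} (h : s ≤ s') :
    ∃ z : Xp 𝕜 p, ‖z‖ ≤ ‖g‖ * (s' - s) ∧
      ∀ k, Phi hp g m k s' - Phi hp g m k s = (wt mu (dy m) p k : 𝕜) * z k := by
  obtain ⟨v, hv0⟩ : ∃ v : ℕ → Lp 𝕜 p mu, ∀ n, v n = ∫ x in Set.Ioc s s', fs hp g n x ∂mu :=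
    ⟨_, fun n => rfl⟩
  have hC : 0 ≤ ‖g‖ * (s' - s) := mul_nonneg (norm_nonneg _) (by linarith)
  have hv : ∀ n, ‖v n‖ ≤ ‖g‖ * (s' - s) := by
    intro n
    rw [hv0]
    refine (norm_setIntegral_le_of_norm_le_const (C := ‖g‖) (measure_lt_top _ _) fun x _ => norm_fs hp g n x).trans ?_
    gcongr
    rw [measureReal_def]
    have h1 : mu (Set.Ioc s s') ≤ ENNReal.ofReal (s' - s) := by
      rw [← Real.volume_Ioc]
      exact Measure.restrict_apply_le _ _
    exact ENNReal.toReal_le_of_le_ofReal (by linarith) h1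
  obtain ⟨z, hz, hzn⟩ := exists_lim hp (fun n => T mu (measurable_dy m) hp (v n)) _ hC
    (fun n => (norm_T _ hp _).trans (hv n))
  refine ⟨z, hzn, fun k => ?_⟩
  have hTb : ∀ n, ‖(T mu (measurable_dy m) hp (v n) : Xp 𝕜 p) k‖ ≤ ‖g‖ * (s' - s) := fun n =>
    (lp.norm_apply_le_norm (by have := hp1.out; intro h; simp [h] at this) _ k).trans
      ((norm_T _ hp _).trans (hv n))
  rw [hz k, ← ulim_smul (wt mu (dy m) p k : 𝕜) hTb]
  have e : Phi hp g m k s' = Phi hp g m k s + ulim (fun n => (wt mu (dy m) p k : 𝕜) * (T mu (measurable_dy m) hp (v n) : Xp 𝕜 p) k) := by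
    rw [Phi, Phi, ← ulim_add (bd_int hp g m k s) (D := wt mu (dy m) p k * (‖g‖ * (s' - s))) (fun n => by
      rw [norm_mul, RCLike.norm_ofReal, abs_of_nonneg (wt_nonneg k)]
      exact mul_le_mul_of_nonneg_left (hTb n) (wt_nonneg k))]
    congr 1
    funext n
    rw [← av_eq]
    have h1 := (av 𝕜 hp m k).integral_comp_comm (μ := mu.restrict (Set.Ioc s s')) (φ := fs hp g n)
      (int_fs hp g n).integrableOn
    have hi := int_av hp g m k n
    rw [hv0, ← h1, ← setIntegral_union (Set.Iic_disjoint_Ioc le_rfl) measurableSet_Ioc hi.integrableOn hi.integrableOn,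
      Set.Iic_union_Ioc_eq_Iic h]
  rw [e]
  ring

theorem Phi_lip (hp : p ≠ ∞) (g : Hub 𝕜 p) (m k : ℕ) :
    LipschitzWith (Real.toNNReal (wt mu (dy m) p k * ‖g‖)) (Phi hp g m k) := by
  have key : ∀ s s' : ℝ, s ≤ s' → dist (Phi hp g m k s) (Phi hp g m k s') ≤ wt mu (dy m) p k * ‖g‖ * dist s s' := by
    intro s s' h
    obtain ⟨z, hz, hk⟩ := Phi_incr hp g m h
    rw [dist_comm, dist_eq_norm, hk k, norm_mul, RCLike.norm_ofReal, abs_of_nonneg (wt_nonneg k), mul_assoc,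
      dist_comm s, Real.dist_eq, abs_of_nonneg (by linarith : 0 ≤ s' - s)]
    refine mul_le_mul_of_nonneg_left ?_ (wt_nonneg k)
    exact (lp.norm_apply_le_norm (by have := hp1.out; intro h; simp [h] at this) z k).trans hz
  refine LipschitzWith.of_dist_le_mul fun s s' => ?_
  rw [Real.coe_toNNReal _ (mul_nonneg (wt_nonneg k) (norm_nonneg _))]
  rcases le_total s s' with h | h
  · exact key s s' h
  · rw [dist_comm, dist_comm s]; exact key s' s h

/-- densities -/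
noncomputable def cc (hp : p ≠ ∞) (g : Hub 𝕜 p) (m k : ℕ) (s : ℝ) : 𝕜 := deriv (Phi hp g m k) s

theorem measurable_cc (hp : p ≠ ∞) (g : Hub 𝕜 p) (m k : ℕ) : Measurable (cc hp g m k) :=
  measurable_deriv _

theorem ae_diff (hp : p ≠ ∞) (g : Hub 𝕜 p) : ∀ᵐ s ∂mu, ∀ m k, DifferentiableAt ℝ (Phi hp g m k) s := by
  refine ae_restrict_of_ae ?_
  rw [ae_all_iff]
  intro m
  rw [ae_all_iff]
  intro k
  exact (Phi_lip hp g m k).ae_differentiableAt_real

theorem cc_split (hp : p ≠ ∞) (g : Hub 𝕜 p) {s : ℝ} (hs : ∀ m k, DifferentiableAt ℝ (Phi hp g m k) s)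
    (m k : ℕ) : cc hp g m k s = (cc hp g (m + 1) (2 * k) s + cc hp g (m + 1) (2 * k + 1) s) / 2 := by
  have e : Phi hp g m k = fun s => (1 / 2) * (Phi hp g (m + 1) (2 * k) s + Phi hp g (m + 1) (2 * k + 1) s) := by
    funext s; exact Phi_split hp g m k s
  have h1 := ((hs (m + 1) (2 * k)).hasDerivAt.add (hs (m + 1) (2 * k + 1)).hasDerivAt).const_mul (1 / 2 : 𝕜)
  have h2 : HasDerivAt (Phi hp g m k) ((1 / 2 : 𝕜) * (deriv (Phi hp g (m + 1) (2 * k)) s + deriv (Phi hp g (m + 1) (2 * k + 1)) s)) s := by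
    rw [e]; exact h1
  rw [cc, h2.deriv, cc, cc]
  ring

theorem sm_step (m : ℕ) (F : ℕ → 𝕜) : AEStronglyMeasurable (fun t => F (dy m t)) mu :=
  ((StronglyMeasurable.of_discrete (f := F)).comp_measurable (measurable_dy m)).aestronglyMeasurable

theorem eLpNorm_cc (hp : p ≠ ∞) (g : Hub 𝕜 p) {s : ℝ} (hs : ∀ m k, DifferentiableAt ℝ (Phi hp g m k) s)
    (m : ℕ) : eLpNorm (fun t => cc hp g m (dy m t) s) p mu ≤ ENNReal.ofReal ‖g‖ := by
  refine Lp.eLpNorm_le_of_ae_tendsto (u := 𝓝[≠] s) (f := fun x t => slope (Phi hp g m (dy m t)) s x)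
    ?_ (fun x => sm_step m (fun k => slope (Phi hp g m k) s x)) (Eventually.of_forall fun t => ?_)
  · filter_upwards [self_mem_nhdsWithin] with x hx
    -- increments
    have key : ∀ a b : ℝ, a < b → eLpNorm (fun t => (b - a)⁻¹ • (Phi hp g m (dy m t) b - Phi hp g m (dy m t) a)) p mu
        ≤ ENNReal.ofReal ‖g‖ := by
      intro a b hab
      obtain ⟨z, hz, hk⟩ := Phi_incr hp g m hab.le
      have e : (fun t => (b - a)⁻¹ • (Phi hp g m (dy m t) b - Phi hp g m (dy m t) a)) =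
          (b - a)⁻¹ • fun t => (wt mu (dy m) p (dy m t) : 𝕜) * z (dy m t) := by
        funext t
        rw [hk]; rfl
      rw [e, eLpNorm_const_smul]
      have h1 := eLpNorm_U (μ := mu) (measurable_dy m) hp z
      have h0 : 0 < b - a := by linarith
      calc _ ≤ ‖(b - a)⁻¹‖ₑ * ENNReal.ofReal ‖z‖ := by gcongr
        _ ≤ ENNReal.ofReal ((b - a)⁻¹) * ENNReal.ofReal (‖g‖ * (b - a)) := by
          gcongr
          rw [← ofReal_norm, Real.norm_of_nonneg (inv_nonneg.2 h0.le)]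
        _ = ENNReal.ofReal ‖g‖ := by
          rw [← ENNReal.ofReal_mul (inv_nonneg.2 h0.le)]
          congr 1
          field_simp
    rcases lt_or_gt_of_ne (show x ≠ s from hx) with h | h
    · refine le_trans (le_of_eq ?_) (key x s h)
      congr 1
      funext t
      rw [slope_comm]; rfl
    · exact key s x h
  · exact hasDerivAt_iff_tendsto_slope.1 (hs m _).hasDerivAt

theorem l1_cc (hp : p ≠ ∞) (g : Hub 𝕜 p) {s : ℝ} (hs : ∀ m k, DifferentiableAt ℝ (Phi hp g m k) s)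
    (m : ℕ) : ∑ k ∈ Finset.range (2 ^ m), ((2:ℝ) ^ m)⁻¹ * ‖cc hp g m k s‖ ≤ ‖g‖ := by
  have h1 := integral_dy m (fun k => ‖cc hp g m k s‖)
  simp only [smul_eq_mul] at h1
  rw [← h1]
  have hm := sm_step m (fun k => cc hp g m k s)
  have h2 : eLpNorm (fun t => cc hp g m (dy m t) s) 1 mu ≤ ENNReal.ofReal ‖g‖ :=
    (eLpNorm_le_eLpNorm_of_exponent_le hp1.out hm).trans (eLpNorm_cc hp g hs m)
  rw [eLpNorm_one_eq_lintegral_enorm] at h2
  rw [integral_norm_eq_lintegral_enorm hm]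
  exact ENNReal.toReal_le_of_le_ofReal (norm_nonneg _) h2

/-- the joint step functions -/
noncomputable def HH (hp : p ≠ ∞) (g : Hub 𝕜 p) (m : ℕ) (z : ℝ × ℝ) : 𝕜 := cc hp g m (dy m z.2) z.1

theorem measurable_HH (hp : p ≠ ∞) (g : Hub 𝕜 p) (m : ℕ) : Measurable (HH hp g m) := by
  have h1 : Measurable (fun z : ℝ × ℕ => cc hp g m z.2 z.1) :=
    measurable_from_prod_countable_left fun k => measurable_cc hp g m k
  have h2 : Measurable (fun z : ℝ × ℝ => (z.1, dy m z.2)) :=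
    measurable_fst.prodMk ((measurable_dy m).comp measurable_snd)
  have h3 : HH hp g m = (fun z : ℝ × ℕ => cc hp g m z.2 z.1) ∘ (fun z : ℝ × ℝ => (z.1, dy m z.2)) := by
    funext z
    rfl
  rw [h3]
  exact h1.comp h2

theorem exists_P (hp : p ≠ ∞) (g : Hub 𝕜 p) : ∃ F : ℝ → Lp 𝕜 p mu, StronglyMeasurable F ∧
    (∀ᵐ s ∂mu, ‖F s‖ ≤ ‖g‖) ∧
    ∀ᵐ s ∂mu, ∀ᵐ t ∂mu, Tendsto (fun m => cc hp g m (dy m t) s) atTop (𝓝 (F s t)) := by
  have hmeas : MeasurableSet {z : ℝ × ℝ | ∃ l, Tendsto (fun m => HH hp g m z) atTop (𝓝 l)} :=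
    measurableSet_exists_tendsto (fun m => measurable_HH hp g m)
  have h1 : ∀ᵐ z ∂(mu.prod mu), ∃ l, Tendsto (fun m => HH hp g m z) atTop (𝓝 l) := by
    rw [Measure.ae_prod_iff_ae_ae hmeas]
    filter_upwards [ae_diff hp g] with s hs
    exact dyadic_conv (fun m k => cc hp g m k s) (fun m k => cc_split hp g hs m k) ‖g‖ (fun m => l1_cc hp g hs m)
  obtain ⟨H, hH, hlim⟩ := exists_stronglyMeasurable_limit_of_tendsto_ae
    (fun m => (measurable_HH hp g m).aestronglyMeasurable) h1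
  obtain ⟨F, hF, hFe⟩ := exists_curry (p := p) hp hH
  have h2 : ∀ᵐ s ∂mu, ∀ᵐ t ∂mu, Tendsto (fun m => cc hp g m (dy m t) s) atTop (𝓝 (H (s, t))) :=
    Measure.ae_ae_of_ae_prod hlim
  have h3 : ∀ᵐ s ∂mu, eLpNorm (fun t => H (s, t)) p mu ≤ ENNReal.ofReal ‖g‖ := by
    filter_upwards [ae_diff hp g, h2] with s hs hs2
    exact Lp.eLpNorm_le_of_ae_tendsto (Eventually.of_forall fun m => eLpNorm_cc hp g hs m)
      (fun m => sm_step m (fun k => cc hp g m k s)) hs2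
  have h4 : ∀ᵐ s ∂mu, MemLp (fun t => H (s, t)) p mu := by
    filter_upwards [h3] with s hs
    exact ⟨(hH.comp_measurable measurable_prodMk_left).aestronglyMeasurable, hs.trans_lt ENNReal.ofReal_lt_top⟩
  refine ⟨F, hF, ?_, ?_⟩
  · filter_upwards [h3, h4] with s hs hs4
    rw [Lp.norm_def, eLpNorm_congr_ae (hFe s hs4)]
    exact ENNReal.toReal_le_of_le_ofReal (norm_nonneg _) hs
  · filter_upwards [h2, h4] with s hs hs4
    filter_upwards [hs, hFe s hs4] with t ht ht2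
    rw [ht2]; exact ht

end lam

end V11299.LI
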