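import Mathlib
import Pool.Agent.V11299.LI.Lam

open scoped ENNReal Topology
open Filter MeasureTheory

set_option linter.unusedSectionVars false
set_option linter.unusedVariables false

namespace V11299.LI

section avA
variable {𝕜 : Type*} [RCLike 𝕜] {X : Type*} [NormedAddCommGroup X] [NormedSpace 𝕜 X] [NormedSpace ℝ X]
  [SMulCommClass ℝ 𝕜 X] [CompleteSpace X]

theorem ae_norm_le (f : Lp X ∞ mu) : ∀ᵐ s ∂mu, ‖f s‖ ≤ ‖f‖ := by
  filter_upwards [ae_le_eLpNormEssSup (f := f) (μ := mu)] with s hs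
  rw [Lp.norm_def, eLpNorm_exponent_top]
  have h1 : eLpNormEssSup f mu ≠ ∞ := by
    have := Lp.eLpNorm_ne_top f
    rwa [eLpNorm_exponent_top] at this
  rw [← ofReal_norm] at hs
  exact (ENNReal.ofReal_le_iff_le_toReal h1).1 hs

theorem int_Linf (f : Lp X ∞ mu) : Integrable f mu :=
  (Lp.memLp f).integrable (by simp)

/-- average over a cell -/
noncomputable def avA (𝕜 : Type*) [RCLike 𝕜] {X : Type*} [NormedAddCommGroup X] [NormedSpace 𝕜 X] [NormedSpace ℝ X]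
  [SMulCommClass ℝ 𝕜 X] [CompleteSpace X] (π : ℝ → ℕ) (k : ℕ) : Lp X ∞ mu →ₗ[𝕜] X where
  toFun f := (((ms mu π k)⁻¹ : ℝ) : 𝕜) • ∫ s in π ⁻¹' {k}, f s ∂mu
  map_add' f g := by
    rw [← smul_add, ← integral_add (int_Linf f).integrableOn (int_Linf g).integrableOn]
    congr 1
    exact integral_congr_ae (ae_restrict_of_ae (Lp.coeFn_add f g))
  map_smul' c f := by
    have h1 : ∫ s in π ⁻¹' {k}, (c • f : Lp X ∞ mu) s ∂mu = c • ∫ s in π ⁻¹' {k}, f s ∂mu := by
      rw [← integral_smul]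
      exact integral_congr_ae (ae_restrict_of_ae (Lp.coeFn_smul c f))
    rw [h1, RingHom.id_apply, smul_comm]

theorem avA_apply (π : ℝ → ℕ) (k : ℕ) (f : Lp X ∞ mu) :
    avA 𝕜 π k f = (((ms mu π k)⁻¹ : ℝ) : 𝕜) • ∫ s in π ⁻¹' {k}, f s ∂mu := rfl

theorem norm_avA (π : ℝ → ℕ) (k : ℕ) (f : Lp X ∞ mu) : ‖avA 𝕜 π k f‖ ≤ ‖f‖ := by
  rw [avA_apply, norm_smul, RCLike.norm_ofReal, abs_of_nonneg (inv_nonneg.2 (ms_nonneg k))]
  have h1 : ‖∫ s in π ⁻¹' {k}, f s ∂mu‖ ≤ ‖f‖ * ms mu π k :=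
    norm_setIntegral_le_of_norm_le_const_ae (measure_lt_top _ _) (ae_restrict_of_ae (ae_norm_le f))
  calc (ms mu π k)⁻¹ * ‖∫ s in π ⁻¹' {k}, f s ∂mu‖ ≤ (ms mu π k)⁻¹ * (‖f‖ * ms mu π k) := by
        gcongr
        exact inv_nonneg.2 (ms_nonneg k)
    _ = ((ms mu π k)⁻¹ * ms mu π k) * ‖f‖ := by ring
    _ ≤ 1 * ‖f‖ := by
        gcongr
        exact inv_mul_le_one
    _ = ‖f‖ := one_mul _

end avA

section main
variable {𝕜 : Type*} [RCLike 𝕜] {p : ℝ≥0∞} [hp1 : Fact (1 ≤ p)]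

variable (𝕜 p) in
/-- `L_∞(L_p)` -/
noncomputable abbrev Ap := Lp (Lp 𝕜 p mu) ∞ mu

/-- `F` is the limit function attached to `g`. -/
def Rel (hp : p ≠ ∞) (g : Hub 𝕜 p) (F : Ap 𝕜 p) : Prop :=
  ∀ᵐ s ∂mu, ∀ᵐ t ∂mu, Tendsto (fun m => cc hp g m (dy m t) s) atTop (𝓝 ((F s : Lp 𝕜 p mu) t))

theorem Rel.unique {hp : p ≠ ∞} {g : Hub 𝕜 p} {F F' : Ap 𝕜 p} (h : Rel hp g F) (h' : Rel hp g F') :
    F = F' := by
  apply Lp.ext
  filter_upwards [h, h'] with s hs hs'
  apply Lp.ext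
  filter_upwards [hs, hs'] with t ht ht'
  exact tendsto_nhds_unique ht ht'

theorem exists_Rel (hp : p ≠ ∞) (g : Hub 𝕜 p) : ∃ F : Ap 𝕜 p, Rel hp g F ∧ ‖F‖ ≤ ‖g‖ := by
  obtain ⟨F, hF, hb, hl⟩ := exists_P hp g
  have hm : MemLp F ∞ mu := memLp_top_of_bound hF.aestronglyMeasurable _ hb
  refine ⟨hm.toLp, ?_, ?_⟩
  · filter_upwards [hl, hm.coeFn_toLp] with s hs h2
    rw [h2]
    exact hs
  · rw [Lp.norm_toLp]
    refine ENNReal.toReal_le_of_le_ofReal (norm_nonneg _) ?_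
    rw [eLpNorm_exponent_top]
    refine eLpNormEssSup_le_of_ae_bound hb

theorem cc_add (hp : p ≠ ∞) (g g' : Hub 𝕜 p) {s : ℝ} (hs : ∀ m k, DifferentiableAt ℝ (Phi hp g m k) s)
    (hs' : ∀ m k, DifferentiableAt ℝ (Phi hp g' m k) s) (m k : ℕ) :
    cc hp (g + g') m k s = cc hp g m k s + cc hp g' m k s := by
  have e : Phi hp (g + g') m k = Phi hp g m k + Phi hp g' m k := by
    funext s; exact Phi_add hp g g' m k s
  rw [cc, e, deriv_add (hs m k) (hs' m k)]
  rfl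

theorem cc_smul (hp : p ≠ ∞) (c : 𝕜) (g : Hub 𝕜 p) {s : ℝ} (hs : ∀ m k, DifferentiableAt ℝ (Phi hp g m k) s)
    (m k : ℕ) : cc hp (c • g) m k s = c * cc hp g m k s := by
  have e : Phi hp (c • g) m k = fun s => c * Phi hp g m k s := by
    funext s; exact Phi_smul hp c g m k s
  rw [cc, e]
  exact ((hs m k).hasDerivAt.const_mul c).deriv

theorem Rel.add {hp : p ≠ ∞} {g g' : Hub 𝕜 p} {F F' : Ap 𝕜 p} (h : Rel hp g F) (h' : Rel hp g' F') :
    Rel hp (g + g') (F + F') := by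
  filter_upwards [h, h', ae_diff hp g, ae_diff hp g', Lp.coeFn_add F F'] with s hs hs' hd hd' h1
  rw [h1]
  filter_upwards [hs, hs', Lp.coeFn_add (F s : Lp 𝕜 p mu) (F' s : Lp 𝕜 p mu)] with t ht ht' h2
  rw [Pi.add_apply, h2]
  exact (ht.add ht').congr fun m => (cc_add hp g g' hd hd' m _).symm

theorem Rel.smul {hp : p ≠ ∞} (c : 𝕜) {g : Hub 𝕜 p} {F : Ap 𝕜 p} (h : Rel hp g F) :
    Rel hp (c • g) (c • F) := by
  filter_upwards [h, ae_diff hp g, Lp.coeFn_smul c F] with s hs hd h1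
  rw [h1]
  filter_upwards [hs, Lp.coeFn_smul c (F s : Lp 𝕜 p mu)] with t ht h2
  rw [Pi.smul_apply, h2]
  exact (ht.const_mul c).congr fun m => (cc_smul hp c g hd m _).symm

theorem av_UT (hp : p ≠ ∞) {m n : ℕ} (hmn : m ≤ n) (k : ℕ) (h : Lp 𝕜 p mu) :
    av 𝕜 hp m k (U mu (measurable_dy n) hp (T mu (measurable_dy n) hp h)) = av 𝕜 hp m k h := by
  rw [av_apply, av_apply]
  have e : dy m ⁻¹' {k} = dy n ⁻¹' {j | j / 2 ^ (n - m) = k} := by
    ext t
    simp [dy_div hmn t]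
  rw [e, setIntegral_UT]

/-- the embedding of `L_∞(L_p)` into the hub -/
noncomputable def JJ (hp : p ≠ ∞) : Ap 𝕜 p →L[𝕜] Hub 𝕜 p :=
  infLift (fun j => (T mu (measurable_dy j.1) hp).toLinearMap.comp (avA 𝕜 (dy j.1) j.2)) 1 (fun j f => by
    rw [one_mul]
    exact (norm_T (measurable_dy j.1) hp _).trans (norm_avA _ _ f))

theorem JJ_apply (hp : p ≠ ∞) (f : Ap 𝕜 p) (j : ℕ × ℕ) :
    JJ hp f j = T mu (measurable_dy j.1) hp (avA 𝕜 (dy j.1) j.2 f) := rfl

theorem int_avf (hp : p ≠ ∞) (f : Ap 𝕜 p) (m k : ℕ) : Integrable (fun x => av 𝕜 hp m k (f x)) mu := by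
  have h := int_Linf f
  exact ContinuousLinearMap.integrable_comp (av 𝕜 hp m k) h

theorem av_avA (hp : p ≠ ∞) (f : Ap 𝕜 p) (m k n i : ℕ) :
    av 𝕜 hp m k (avA 𝕜 (dy n) i f) = (ms mu (dy n) i)⁻¹ • ∫ x in dy n ⁻¹' {i}, av 𝕜 hp m k (f x) ∂mu := by
  have h1 := (av 𝕜 hp m k).integral_comp_comm (μ := mu.restrict (dy n ⁻¹' {i})) (φ := f)
      (int_Linf f).integrableOn
  rw [avA_apply, map_smul, h1, RCLike.real_smul_eq_coe_mul, smul_eq_mul]

theorem Phi_JJ (hp : p ≠ ∞) (f : Ap 𝕜 p) (m k : ℕ) (s : ℝ) :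
    Phi hp (JJ hp f) m k s = ∫ x in Set.Iic s, av 𝕜 hp m k (f x) ∂mu := by
  apply ulim_eq_of_tendsto
  refine tendsto_integral_of_dominated_convergence (fun _ => wt mu (dy m) p k * ‖JJ hp f‖)
    (fun n => (int_av hp (JJ hp f) m k n).aestronglyMeasurable.restrict) (integrable_const _) ?_ ?_
  · intro n
    exact Eventually.of_forall fun x => (norm_av hp m k _).trans
      (mul_le_mul_of_nonneg_left (norm_fs hp _ n x) (wt_nonneg k))
  · refine ae_restrict_of_ae ?_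
    filter_upwards [dyadic_leb (int_avf hp f m k)] with x hx
    refine hx.congr' ?_
    filter_upwards [eventually_ge_atTop m] with n hn
    rw [fs, JJ_apply, av_UT hp hn, av_avA]

theorem deriv_Iic {E : Type*} [NormedAddCommGroup E] [NormedSpace ℝ E] [CompleteSpace E] {h : ℝ → E}
    (hh : Integrable h mu) : ∀ᵐ s ∂mu, deriv (fun s => ∫ x in Set.Iic s, h x ∂mu) s = h s := by
  have h0 : Integrable ((Set.Icc (0:ℝ) 1).indicator h) volume :=
    (integrable_indicator_iff measurableSet_Icc).2 hh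
  have h2 := LocallyIntegrable.ae_hasDerivAt_integral h0.locallyIntegrable
  filter_upwards [ae_restrict_of_ae h2, ae_Ico] with s hs hs'
  have h4 : (Set.Icc (0:ℝ) 1).indicator h s = h s :=
    Set.indicator_of_mem (Set.Ico_subset_Icc_self hs') _
  have e : (fun s => ∫ x in Set.Iic s, h x ∂mu) = fun s => (∫ x in Set.Iic 0, (Set.Icc (0:ℝ) 1).indicator h x) +
      ∫ x in (0:ℝ)..s, (Set.Icc (0:ℝ) 1).indicator h x := by
    funext s
    rw [← intervalIntegral.integral_Iic_sub_Iic h0.integrableOn h0.integrableOn]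
    rw [add_sub_cancel, integral_indicator measurableSet_Icc]
    rw [mu, Measure.restrict_restrict measurableSet_Iic, Measure.restrict_restrict measurableSet_Icc,
      Set.inter_comm]
  rw [e, ← h4]
  exact ((hs 0).const_add _).deriv

theorem Rel_JJ (hp : p ≠ ∞) (f : Ap 𝕜 p) : Rel hp (JJ hp f) f := by
  have h1 : ∀ᵐ s ∂mu, ∀ m k, cc hp (JJ hp f) m k s = av 𝕜 hp m k (f s) := by
    rw [ae_all_iff]
    intro m
    rw [ae_all_iff]
    intro k
    filter_upwards [deriv_Iic (int_avf hp f m k)] with s hs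
    rw [← hs, cc]
    congr 1
    funext s
    exact Phi_JJ hp f m k s
  filter_upwards [h1] with s hs
  filter_upwards [dyadic_leb (integrable_Lp (f s : Lp 𝕜 p mu))] with t ht
  refine ht.congr fun m => ?_
  rw [hs, av_apply, RCLike.real_smul_eq_coe_mul]

theorem compl_A_hub (hp : p ≠ ∞) : Compl 𝕜 (Ap 𝕜 p) (Hub 𝕜 p) := by
  choose F hF hn using exists_Rel (𝕜 := 𝕜) hp
  refine ⟨JJ hp, LinearMap.mkContinuous
    { toFun := F
      map_add' := fun g g' => (hF (g + g')).unique ((hF g).add (hF g'))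
      map_smul' := fun c g => (hF (c • g)).unique ((hF g).smul c) } 1 (fun g => by
        rw [one_mul]; exact hn g), fun f => ?_⟩
  exact (hF _).unique (Rel_JJ hp f)

/-- a partition into cells of positive mass -/
noncomputable def sg (t : ℝ) : ℕ := ⌊1 / t⌋₊ - 1

theorem measurable_sg : Measurable sg :=
  (measurable_from_top (f := fun n : ℕ => n - 1)).comp
    (Nat.measurable_floor.comp (measurable_const.div measurable_id))

theorem ms_sg (k : ℕ) : 0 < ms mu sg k := by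
  have hsub : Set.Ioo (1 / ((k:ℝ) + 2)) (1 / ((k:ℝ) + 1)) ⊆ sg ⁻¹' {k} ∩ Set.Icc 0 1 := by
    rintro t ⟨h1, h2⟩
    have ht : 0 < t := lt_trans (by positivity) h1
    have h3 : (k:ℝ) + 1 < 1 / t := by
      rw [lt_div_iff₀ ht]
      rw [lt_div_iff₀ (by positivity)] at h2
      linarith
    have h4 : 1 / t < (k:ℝ) + 2 := by
      rw [div_lt_iff₀ ht]
      rw [div_lt_iff₀ (by positivity)] at h1
      linarith
    refine ⟨?_, ht.le, ?_⟩
    · have : ⌊1 / t⌋₊ = k + 1 := by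
        rw [Nat.floor_eq_iff (by positivity)]
        push_cast
        exact ⟨h3.le, by linarith⟩
      change ⌊1 / t⌋₊ - 1 = k
      rw [this]
      omega
    · refine h2.le.trans ?_
      rw [div_le_one (by positivity)]
      have : (0:ℝ) ≤ k := Nat.cast_nonneg k
      linarith
  rw [ms, measureReal_def, ENNReal.toReal_pos_iff]
  refine ⟨?_, measure_lt_top _ _⟩
  rw [Measure.restrict_apply (measurable_sg (measurableSet_singleton k))]
  refine lt_of_lt_of_le ?_ (measure_mono hsub)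
  rw [Real.volume_Ioo, ENNReal.ofReal_pos, sub_pos]
  apply one_div_lt_one_div_of_lt <;> linarith [(Nat.cast_nonneg k : (0:ℝ) ≤ k)]

theorem memLp_II (hp : p ≠ ∞) (g : Hub 𝕜 p) :
    MemLp (fun s => U mu measurable_sg hp (g (Nat.unpair (sg s)))) ∞ mu :=
  memLp_top_of_bound ((StronglyMeasurable.of_discrete
    (f := fun k : ℕ => U mu measurable_sg hp (g (Nat.unpair k)))).comp_measurable measurable_sg).aestronglyMeasurable ‖g‖
    (Eventually.of_forall fun s => (norm_U _ hp _).trans (norm_hub_le g _))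

theorem compl_hub_A (hp : p ≠ ∞) : Compl 𝕜 (Hub 𝕜 p) (Ap 𝕜 p) := by
  refine ⟨LinearMap.mkContinuous
    { toFun := fun g => (memLp_II hp g).toLp
      map_add' := fun x y => by
        rw [← MemLp.toLp_add]
        congr 1
        ext1 s
        simp
      map_smul' := fun c x => by
        rw [RingHom.id_apply, ← MemLp.toLp_const_smul]
        congr 1
        ext1 s
        simp } 1 (fun g => ?_),
    infLift (fun j => (T mu measurable_sg hp).toLinearMap.comp (avA 𝕜 sg (Nat.pair j.1 j.2))) 1 (fun j f => by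
      rw [one_mul]
      exact (norm_T measurable_sg hp _).trans (norm_avA _ _ f)), fun g => ?_⟩
  · rw [one_mul]
    change ‖(memLp_II hp g).toLp‖ ≤ ‖g‖
    rw [Lp.norm_toLp]
    refine ENNReal.toReal_le_of_le_ofReal (norm_nonneg _) ?_
    rw [eLpNorm_exponent_top]
    exact eLpNormEssSup_le_of_ae_bound (Eventually.of_forall fun s => (norm_U _ hp _).trans (norm_hub_le g _))
  · ext1
    funext j
    change T mu measurable_sg hp (avA 𝕜 sg (Nat.pair j.1 j.2) ((memLp_II hp g).toLp : Ap 𝕜 p)) = g j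
    have h1 : avA 𝕜 sg (Nat.pair j.1 j.2) ((memLp_II hp g).toLp : Ap 𝕜 p) = U mu measurable_sg hp (g j) := by
      rw [avA_apply]
      have h2 : ∫ s in sg ⁻¹' {Nat.pair j.1 j.2}, ((memLp_II hp g).toLp : Ap 𝕜 p) s ∂mu =
          ∫ s in sg ⁻¹' {Nat.pair j.1 j.2}, U mu measurable_sg hp (g j) ∂mu := by
        refine setIntegral_congr_ae (measurable_sg (measurableSet_singleton _)) ?_
        filter_upwards [(memLp_II hp g).coeFn_toLp] with s hs hk
        rw [hs, show sg s = Nat.pair j.1 j.2 from hk, Nat.unpair_pair]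
      rw [h2, setIntegral_const, ← ms, ← RCLike.real_smul_eq_coe_smul (K := 𝕜), smul_smul,
        inv_mul_cancel₀ (ms_sg _).ne', one_smul]
    rw [h1]
    exact T_U measurable_sg hp ms_sg (g j)

theorem main (hp : p ≠ ∞) : Nonempty (Ap 𝕜 p ≃L[𝕜] Bp 𝕜 p) := by
  obtain ⟨e1⟩ := pelczynski (swindle 𝕜 (Xp 𝕜 p)) (compl_A_hub (𝕜 := 𝕜) hp) (compl_hub_A hp)
  obtain ⟨e2⟩ := hub_B (𝕜 := 𝕜) hp
  exact ⟨e1.symm.trans e2⟩

end main

end V11299.LI
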